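import Mathlib
import Pool.Agent.H65.Perc.Special

/-!
# Row operators with a weight for every strand; commutation
-/

namespace Pool.Agent.H21.Perc

open Pool.Agent.H65.Perc Pool.Agent.H65.Perc.St

variable {Λ : Type*} [DecidableEq Λ]

/-- product of the crossings along a list of strands -/
noncomputable def iK (t : ℝ) (a : Λ → ℝ) (us : List Λ) (y : Λ) : Op Λ :=
  (us.map (fun u => opR t (a u) u y)).prod

theorem iK_nil (t : ℝ) (a : Λ → ℝ) (y : Λ) : iK t a [] y = 1 := rfl
theorem iK_cons (t : ℝ) (a : Λ → ℝ) (u : Λ) (us : List Λ) (y : Λ) :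
    iK t a (u :: us) y = opR t (a u) u y * iK t a us y := by simp [iK]
theorem iK_append (t : ℝ) (a : Λ → ℝ) (us vs : List Λ) (y : Λ) :
    iK t a (us ++ vs) y = iK t a us y * iK t a vs y := by simp [iK]

theorem iK_congr (t : ℝ) {a a' : Λ → ℝ} {us : List Λ} (h : ∀ u ∈ us, a u = a' u) (y : Λ) :
    iK t a us y = iK t a' us y := by
  unfold iK
  congr 1
  apply List.map_congr_left
  intro u hu
  rw [h u hu]

theorem iK_comm_of (t : ℝ) (a : Λ → ℝ) (us : List Λ) (y : Λ) (Z : Op Λ)
    (h : ∀ u ∈ us, opR t (a u) u y * Z = Z * opR t (a u) u y) :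
    iK t a us y * Z = Z * iK t a us y := by
  induction us with
  | nil => simp [iK_nil]
  | cons u us ih =>
    rw [iK_cons, mul_assoc, ih (fun v hv => h v (List.mem_cons_of_mem _ hv)), ← mul_assoc,
      h u List.mem_cons_self, mul_assoc]

/-- product of the two-line crossings along a list of strands -/
noncomputable def iKK (t : ℝ) (a a' : Λ → ℝ) (us : List Λ) (y y' : Λ) : Op Λ :=
  (us.map (fun u => opR t (a u) u y * opR t (a' u) u y')).prod

theorem iKK_cons (t : ℝ) (a a' : Λ → ℝ) (u : Λ) (us : List Λ) (y y' : Λ) :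
    iKK t a a' (u :: us) y y'
      = opR t (a u) u y * opR t (a' u) u y' * iKK t a a' us y y' := by
  simp [iKK]

theorem iK_mul_iK (t : ℝ) (a a' : Λ → ℝ) {us : List Λ} (hus : us.Nodup) {y y' : Λ}
    (hyy' : y ≠ y') (hy : y ∉ us) (hy' : y' ∉ us) :
    iK t a us y * iK t a' us y' = iKK t a a' us y y' := by
  induction us with
  | nil => simp [iK, iKK]
  | cons u us ih =>
    rw [List.nodup_cons] at hus
    rw [List.mem_cons, not_or] at hy hy'
    rw [iKK_cons, ← ih hus.2 hy.2 hy'.2, iK_cons, iK_cons]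
    have : iK t a us y * opR t (a' u) u y' = opR t (a' u) u y' * iK t a us y := by
      apply iK_comm_of
      intro v hv
      exact opR_opR_disj t (a v) (a' u) (fun h => hy.2 (h ▸ hv)) (fun h => hus.1 (h ▸ hv))
        (fun h => hy'.2 (h ▸ hv)) hy.1 hyy' (Ne.symm hy'.1)
    rw [mul_assoc, ← mul_assoc (iK t a us y), this]
    simp only [mul_assoc]

theorem iybe_list (t : ℝ) {a a' : Λ → ℝ} {κ : ℝ} {us : List Λ} {y y' : Λ} (hyy' : y ≠ y')
    (hy : y ∉ us) (hy' : y' ∉ us)
    (hκ : ∀ u ∈ us, κ * (1 - a' u * (1 - a u)) = a' u * (1 - a u) - a u * (1 - a' u)) :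
    (1 + κ • opE t y y') * iKK t a a' us y y'
      = iKK t a' a us y y' * (1 + κ • opE t y y') := by
  induction us with
  | nil => simp [iKK]
  | cons u us ih =>
    rw [List.mem_cons, not_or] at hy hy'
    rw [iKK_cons, iKK_cons, ← mul_assoc, ybe t (Ne.symm hy.1) (Ne.symm hy'.1) hyy'
      (hκ u List.mem_cons_self), mul_assoc,
      ih hy.2 hy'.2 (fun v hv => hκ v (List.mem_cons_of_mem _ hv))]
    simp only [mul_assoc]

theorem iKK_comm_of (t : ℝ) (a a' : Λ → ℝ) (us : List Λ) (y y' : Λ) (Z : Op Λ)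
    (h : ∀ u ∈ us, opR t (a u) u y * Z = Z * opR t (a u) u y)
    (h' : ∀ u ∈ us, opR t (a' u) u y' * Z = Z * opR t (a' u) u y') :
    iKK t a a' us y y' * Z = Z * iKK t a a' us y y' := by
  induction us with
  | nil => simp [iKK]
  | cons u us ih =>
    rw [iKK_cons, mul_assoc, ih (fun v hv => h v (List.mem_cons_of_mem _ hv))
      (fun v hv => h' v (List.mem_cons_of_mem _ hv)), ← mul_assoc, mul_assoc (opR t (a u) u y),
      h' u List.mem_cons_self, ← mul_assoc, h u List.mem_cons_self]
    simp only [mul_assoc]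

/-- the row operator for the horizontal line with ends `x`, `y` -/
noncomputable def iT (t : ℝ) (a : Λ → ℝ) (us : List Λ) (x y : Λ) : Op Λ :=
  opE t x y * iK t a us y * (opG x 1 * opE t x y)

theorem iT_congr (t : ℝ) {a a' : Λ → ℝ} {us : List Λ} (h : ∀ u ∈ us, a u = a' u) (x y : Λ) :
    iT t a us x y = iT t a' us x y := by
  unfold iT; rw [iK_congr t h]

theorem iT_mul_E (t : ℝ) (a : Λ → ℝ) (us : List Λ) {x y : Λ} (hxy : x ≠ y) :
    iT t a us x y * opE t x y = iT t a us x y := by
  simp only [iT, mul_assoc, opE_sq t hxy]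

theorem E_mul_iT (t : ℝ) (a : Λ → ℝ) (us : List Λ) {x y : Λ} (hxy : x ≠ y) :
    opE t x y * iT t a us x y = iT t a us x y := by
  simp only [iT, ← mul_assoc, opE_sq t hxy]

section Two

variable (t : ℝ) {us : List Λ} {x y x' y' : Λ} (hus : us.Nodup) (hxy : x ≠ y) (hxx' : x ≠ x')
  (hxy' : x ≠ y') (hyx' : y ≠ x') (hyy' : y ≠ y') (hx'y' : x' ≠ y')
  (hx : x ∉ us) (hy : y ∉ us) (hx' : x' ∉ us) (hy' : y' ∉ us)

include hxy hxx' hxy' hyx' hyy' hx'y' hy hx' hy' in
theorem iT_comm_E (a : Λ → ℝ) :
    iT t a us x y * opE t x' y' = opE t x' y' * iT t a us x y := by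
  have hc := opE_opE_disj t hxy hxx' hxy' hyx' hyy' hx'y'
  have h1 : iK t a us y * opE t x' y' = opE t x' y' * iK t a us y := by
    apply iK_comm_of
    intro u hu
    exact opR_opE_disj t (a u) (fun h => hy (h ▸ hu)) (fun h => hx' (h ▸ hu))
      (fun h => hy' (h ▸ hu)) hyx' hyy' hx'y'
  have h2 : opE t x' y' * opG x 1 = opG x 1 * opE t x' y' :=
    opE_opG_disj t hx'y' hxx'.symm hxy'.symm 1
  unfold iT
  rw [mul_assoc, mul_assoc (opG x 1), hc, ← mul_assoc (opG x 1), ← h2]
  rw [mul_assoc (opE t x' y'), ← mul_assoc _ (opE t x' y'), mul_assoc (opE t x y), h1]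
  rw [← mul_assoc (opE t x y), hc]
  simp only [mul_assoc]

include hus hxy hxx' hxy' hyx' hyy' hx'y' hx hy hx' hy' in
/-- product of the row operators on two different lines -/
theorem iT_mul_iT (a a' : Λ → ℝ) :
    opE t x' y' * iT t a us x y * iT t a' us x' y'
      = opE t x y * opE t x' y' * iKK t a a' us y y' *
        (opG x 1 * opG x' 1 * (opE t x y * opE t x' y')) := by
  have hc := opE_opE_disj t hxy hxx' hxy' hyx' hyy' hx'y'
  have h1 : ∀ b, iK t b us y' * opE t x y = opE t x y * iK t b us y' := by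
    intro b
    apply iK_comm_of
    intro u hu
    exact opR_opE_disj t (b u) (fun h => hy' (h ▸ hu)) (fun h => hx (h ▸ hu))
      (fun h => hy (h ▸ hu)) hxy'.symm hyy'.symm hxy
  have h1' : iK t a' us y' * opG x 1 = opG x 1 * iK t a' us y' := by
    apply iK_comm_of
    intro u hu
    exact opR_opG_disj t (a' u) (u := u) (v := y') (w := x) (fun h => hy' (h ▸ hu))
      (fun h => hx (h ▸ hu)) hxy'.symm 1
  have h2 : opE t x' y' * opG x 1 = opG x 1 * opE t x' y' :=
    opE_opG_disj t hx'y' hxx'.symm hxy'.symm 1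
  have h2' : opE t x y * opG x' 1 = opG x' 1 * opE t x y :=
    opE_opG_disj t hxy hxx' hyx' 1
  rw [← iT_comm_E t hxy hxx' hxy' hyx' hyy' hx'y' hy hx' hy' a]
  rw [mul_assoc, E_mul_iT t a' us hx'y']
  unfold iT
  rw [← iK_mul_iK t a a' hus hyy' hy hy']
  -- move the pieces
  have e1 : opG x 1 * opE t x y * (opE t x' y' * iK t a' us y' * (opG x' 1 * opE t x' y'))
      = opE t x' y' * (iK t a' us y' * (opG x 1 * opG x' 1 * (opE t x y * opE t x' y'))) := by
    calc opG x 1 * opE t x y * (opE t x' y' * iK t a' us y' * (opG x' 1 * opE t x' y'))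
        = opG x 1 * (opE t x y * opE t x' y') * iK t a' us y' * (opG x' 1 * opE t x' y') := by
          simp only [mul_assoc]
      _ = (opG x 1 * opE t x' y') * (opE t x y * iK t a' us y') * (opG x' 1 * opE t x' y') := by
          rw [hc]; simp only [mul_assoc]
      _ = opE t x' y' * (opG x 1 * iK t a' us y') * (opE t x y * opG x' 1) * opE t x' y' := by
          rw [← h2, ← h1]; simp only [mul_assoc]
      _ = opE t x' y' * (iK t a' us y' * (opG x 1 * opG x' 1 * (opE t x y * opE t x' y'))) := by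
          rw [← h1', h2']; simp only [mul_assoc]
  rw [mul_assoc (opE t x y * iK t a us y), e1]
  have h3 : iK t a us y * opE t x' y' = opE t x' y' * iK t a us y := by
    apply iK_comm_of
    intro u hu
    exact opR_opE_disj t (a u) (fun h => hy (h ▸ hu)) (fun h => hx' (h ▸ hu))
      (fun h => hy' (h ▸ hu)) hyx' hyy' hx'y'
  calc opE t x y * iK t a us y * (opE t x' y' * (iK t a' us y' *
        (opG x 1 * opG x' 1 * (opE t x y * opE t x' y'))))
      = opE t x y * (iK t a us y * opE t x' y') * (iK t a' us y' *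
        (opG x 1 * opG x' 1 * (opE t x y * opE t x' y'))) := by simp only [mul_assoc]
    _ = _ := by rw [h3]; simp only [mul_assoc]

include hus hxy hxx' hxy' hyx' hyy' hx'y' hx hy hx' hy' in
/-- commutation, first form -/
theorem iT_comm1 {a a' : Λ → ℝ} {κ : ℝ} (hk1 : 1 + κ ≠ 0)
    (hκ : ∀ u ∈ us, κ * (1 - a' u * (1 - a u)) = a' u * (1 - a u) - a u * (1 - a' u)) :
    opE t x' y' * iT t a us x y * iT t a' us x' y'
      = opE t x' y' * iT t a' us x y * iT t a us x' y' := by
  rw [iT_mul_iT t hus hxy hxx' hxy' hyx' hyy' hx'y' hx hy hx' hy' a a',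
    iT_mul_iT t hus hxy hxx' hxy' hyx' hyy' hx'y' hx hy hx' hy' a' a]
  set κ' : ℝ := -κ / (1 + κ) with hκ'def
  have hκ' : κ + κ' + κ * κ' = 0 := by rw [hκ'def]; field_simp; ring
  have inv : ∀ {u v : Λ}, u ≠ v → ((1 : Op Λ) + κ' • opE t u v) * (1 + κ • opE t u v) = 1 := by
    intro u v huv
    have : ((1 : Op Λ) + κ' • opE t u v) * (1 + κ • opE t u v)
        = 1 + (κ + κ' + κ * κ') • opE t u v := by
      simp only [add_mul, mul_add, one_mul, mul_one, smul_mul_assoc, mul_smul_comm,
        opE_sq t huv, smul_smul]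
      module
    rw [this, hκ']; simp
  have y1 := iybe_list t hyy' hy hy' hκ
  have y2 : iKK t a a' us y y' = (1 + κ' • opE t y y') * iKK t a' a us y y'
      * (1 + κ • opE t y y') := by
    rw [mul_assoc, ← y1, ← mul_assoc, inv hyy', one_mul]
  have i1 : opE t x y * opE t x' y' * (1 + κ' • opE t y y')
      = opE t x y * opE t x' y' * (1 + κ' • opE t x x') := by
    rw [mul_add, mul_add, mul_smul_comm, mul_smul_comm,
      idle_E t hxy hxx' hxy' hyx' hyy' hx'y']
  have i2 : (1 + κ • opE t y y') * (opG x 1 * opG x' 1 * (opE t x y * opE t x' y'))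
      = (1 + κ • opE t x x') * (opG x 1 * opG x' 1 * (opE t x y * opE t x' y')) := by
    rw [add_mul, add_mul, smul_mul_assoc, smul_mul_assoc,
      E_close t hxy hxx' hxy' hyx' hyy' hx'y']
  have c1 : iKK t a' a us y y' * (1 + κ' • opE t x x')
      = (1 + κ' • opE t x x') * iKK t a' a us y y' := by
    apply iKK_comm_of
    · intro u hu
      have := opR_opE_disj t (a' u) (u := u) (v := y) (w := x) (z := x') (fun h => hy (h ▸ hu))
        (fun h => hx (h ▸ hu)) (fun h => hx' (h ▸ hu)) hxy.symm hyx' hxx'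
      rw [mul_add, add_mul, mul_smul_comm, smul_mul_assoc, this, mul_one, one_mul]
    · intro u hu
      have := opR_opE_disj t (a u) (u := u) (v := y') (w := x) (z := x') (fun h => hy' (h ▸ hu))
        (fun h => hx (h ▸ hu)) (fun h => hx' (h ▸ hu)) hxy'.symm hx'y'.symm hxx'
      rw [mul_add, add_mul, mul_smul_comm, smul_mul_assoc, this, mul_one, one_mul]
  rw [y2, mul_assoc (opE t x y * opE t x' y'), mul_assoc ((1 + κ' • opE t y y') * _), i2,
    mul_assoc (1 + κ' • opE t y y'), ← mul_assoc (opE t x y * opE t x' y'), i1,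
    mul_assoc (opE t x y * opE t x' y'), ← mul_assoc (1 + κ' • opE t x x'), ← c1,
    mul_assoc (iKK t a' a us y y'), ← mul_assoc (1 + κ' • opE t x x'), inv hxx', one_mul]
  simp only [mul_assoc]

omit hxy hxx' hxy' hyx' hyy' hx'y' in
theorem opM_iK (t : ℝ) (a : Λ → ℝ) (π : Equiv.Perm Λ) (us : List Λ) (y : Λ) (hy : y ∉ us) :
    opM π * iK t a us y = iK t (a ∘ π.symm) (us.map π) (π y) * opM π := by
  induction us with
  | nil => simp [iK]
  | cons u us ih =>
    rw [List.mem_cons, not_or] at hy
    have h1 : opM π * opR t (a u) u y = opR t (a u) (π u) (π y) * opM π := by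
      unfold opR
      rw [mul_add, add_mul, mul_smul_comm, mul_smul_comm, smul_mul_assoc, smul_mul_assoc,
        opM_opP, opM_opE t π (Ne.symm hy.1)]
    rw [iK_cons, ← mul_assoc, h1, mul_assoc, ih hy.2, List.map_cons, iK_cons, mul_assoc]
    simp

omit hxy hxx' hxy' hyx' hyy' hx'y' in
theorem opM_iT (t : ℝ) (a : Λ → ℝ) (π : Equiv.Perm Λ) {us : List Λ} {x y : Λ} (hxy : x ≠ y)
    (hy : y ∉ us) :
    opM π * iT t a us x y = iT t (a ∘ π.symm) (us.map π) (π x) (π y) * opM π := by
  unfold iT
  calc opM π * (opE t x y * iK t a us y * (opG x 1 * opE t x y))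
      = (opM π * opE t x y) * iK t a us y * (opG x 1 * opE t x y) := by simp only [mul_assoc]
    _ = opE t (π x) (π y) * (opM π * iK t a us y) * (opG x 1 * opE t x y) := by
        rw [opM_opE t π hxy]; simp only [mul_assoc]
    _ = opE t (π x) (π y) * iK t (a ∘ π.symm) (us.map π) (π y) *
          (opM π * opG x 1 * opE t x y) := by
        rw [opM_iK t a π us y hy]; simp only [mul_assoc]
    _ = opE t (π x) (π y) * iK t (a ∘ π.symm) (us.map π) (π y) *
          (opG (π x) 1 * (opM π * opE t x y)) := by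
        rw [opM_opG]; simp only [mul_assoc]
    _ = _ := by rw [opM_opE t π hxy]; simp only [mul_assoc]

include hxy hxx' hxy' hyx' hyy' hx'y' hx hy hx' hy' in
/-- on states where both auxiliary lines are idle, the two lines are interchangeable -/
theorem iT_line (a : Λ → ℝ) :
    opE t x y * opE t x' y' * iT t a us x' y' = opE t x y * opE t x' y' * iT t a us x y := by
  have hc := opE_opE_disj t hxy hxx' hxy' hyx' hyy' hx'y'
  set π : Equiv.Perm Λ := Equiv.swap x x' * Equiv.swap y y' with hπ
  have hIπ : opE t x y * opE t x' y' * opM π = opE t x y * opE t x' y' := by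
    rw [hπ, ← opM_opM, ← opP_eq_opM, ← opP_eq_opM]
    have h1 : opE t x y * opE t x' y' * opP x x' = opE t x y * opE t x' y' * opP y y' := by
      have e1 : opE t x y * opP x x' = opE t x y * opE t y x' := opE_opP t hxy hxx' hyx'
      have e2 : opE t x' y' * opP y y' = opE t x' y' * opE t y x' := by
        have := opE_opP t (u := y') (v := x') (w := y) hx'y'.symm hyy'.symm hyx'.symm
        rw [opE_comm t y' x', opP_comm y' y, opE_comm t x' y] at this
        exact this
      rw [mul_assoc (opE t x y) (opE t x' y') (opP y y'), e2, ← mul_assoc, hc, mul_assoc, e1,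
        mul_assoc]
    rw [← mul_assoc, h1, mul_assoc, opP_sq, mul_one]
  have hπx : π x = x' := by
    rw [hπ, Equiv.Perm.mul_apply, Equiv.swap_apply_of_ne_of_ne hxy hxy', Equiv.swap_apply_left]
  have hπy : π y = y' := by
    rw [hπ, Equiv.Perm.mul_apply, Equiv.swap_apply_left,
      Equiv.swap_apply_of_ne_of_ne hxy'.symm hx'y'.symm]
  have hfix : ∀ u ∈ us, π u = u := by
    intro u hu
    have n1 : u ≠ y := fun h => hy (h ▸ hu)
    have n2 : u ≠ y' := fun h => hy' (h ▸ hu)
    have n3 : u ≠ x := fun h => hx (h ▸ hu)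
    have n4 : u ≠ x' := fun h => hx' (h ▸ hu)
    rw [hπ, Equiv.Perm.mul_apply, Equiv.swap_apply_of_ne_of_ne n1 n2,
      Equiv.swap_apply_of_ne_of_ne n3 n4]
  have hπu : us.map π = us := by
    conv_rhs => rw [← List.map_id us]
    apply List.map_congr_left
    intro u hu
    rw [hfix u hu]
    rfl
  have hcongr : iT t (a ∘ π.symm) us x' y' = iT t a us x' y' := by
    refine iT_congr t (fun u hu => ?_) _ _
    rw [Function.comp_apply]
    congr 1
    rw [Equiv.symm_apply_eq, hfix u hu]
  have hconj : opM π * iT t a us x y = iT t a us x' y' * opM π := by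
    rw [opM_iT t a π hxy hy, hπx, hπy, hπu, hcongr]
  have hTI : opE t x y * opE t x' y' * iT t a us x y
      = iT t a us x y * (opE t x y * opE t x' y') := by
    rw [mul_assoc, ← iT_comm_E t hxy hxx' hxy' hyx' hyy' hx'y' hy hx' hy' a, ← mul_assoc,
      E_mul_iT t a us hxy, ← mul_assoc, iT_mul_E t a us hxy]
  have hππ : (opM π : Op Λ) * opM π = 1 := by
    rw [opM_opM, hπ]
    have : Equiv.swap x x' * Equiv.swap y y' * (Equiv.swap x x' * Equiv.swap y y') = 1 := by
      have hd : Equiv.swap x x' * Equiv.swap y y' = Equiv.swap y y' * Equiv.swap x x' := by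
        have := Equiv.mul_swap_eq_swap_mul (Equiv.swap x x') y y'
        rw [this, Equiv.swap_apply_of_ne_of_ne hxy.symm hyx',
          Equiv.swap_apply_of_ne_of_ne hxy'.symm hx'y'.symm]
      nth_rewrite 2 [hd]
      rw [mul_assoc, ← mul_assoc (Equiv.swap y y'), Equiv.swap_mul_self, one_mul,
        Equiv.swap_mul_self]
    rw [this, opM_one]
  calc opE t x y * opE t x' y' * iT t a us x' y'
      = opE t x y * opE t x' y' * (iT t a us x' y' * (opM π * opM π)) := by rw [hππ, mul_one]
    _ = opE t x y * opE t x' y' * opM π * iT t a us x y * opM π := by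
        rw [← mul_assoc (iT t a us x' y'), ← hconj]; simp only [mul_assoc]
    _ = opE t x y * opE t x' y' * iT t a us x y * opM π := by rw [hIπ]
    _ = iT t a us x y * (opE t x y * opE t x' y') * opM π := by rw [hTI]
    _ = iT t a us x y * (opE t x y * opE t x' y' * opM π) := by simp only [mul_assoc]
    _ = _ := by rw [hIπ, hTI]

include hus hxy hxx' hxy' hyx' hyy' hx'y' hx hy hx' hy' in
/-- commutation of the row operators -/
theorem iT_comm {a a' : Λ → ℝ} {κ : ℝ} (hk1 : 1 + κ ≠ 0)
    (hκ : ∀ u ∈ us, κ * (1 - a' u * (1 - a u)) = a' u * (1 - a u) - a u * (1 - a' u)) :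
    opE t x' y' * (iT t a us x y * iT t a' us x y)
      = opE t x' y' * (iT t a' us x y * iT t a us x y) := by
  have key : ∀ b b' : Λ → ℝ, opE t x' y' * (iT t b us x y * iT t b' us x y)
      = opE t x' y' * iT t b us x y * iT t b' us x' y' := by
    intro b b'
    have e1 : ∀ Z, opE t x' y' * (iT t b us x y * Z)
        = iT t b us x y * (opE t x y * opE t x' y' * Z) := by
      intro Z
      rw [← mul_assoc, ← iT_comm_E t hxy hxx' hxy' hyx' hyy' hx'y' hy hx' hy' b,
        mul_assoc (opE t x y), ← mul_assoc (iT t b us x y) (opE t x y), iT_mul_E t b us hxy,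
        mul_assoc]
    rw [e1, mul_assoc (opE t x' y'), e1, iT_line t hxy hxx' hxy' hyx' hyy' hx'y' hx hy hx' hy' b']
  rw [key, key, iT_comm1 t hus hxy hxx' hxy' hyx' hyy' hx'y' hx hy hx' hy' hk1 hκ]

end Two

/-- the rotation lemma: the first crossing can be moved to the end of the row -/
theorem iT_rotate (t : ℝ) (a : Λ → ℝ) {u : Λ} {us : List Λ} {x y : Λ} (hxy : x ≠ y)
    (hux : u ≠ x) (huy : u ≠ y) (hu : u ∉ us) (hx : x ∉ us) (hy : y ∉ us) :
    iT t a (u :: us) x y = opG u 1 * iT t a (us ++ [u]) x y * opG u (-1) := by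
  -- the crossing seen from the left end of the line
  set R' : Op Λ := a u • opE t u x + (1 - a u) • opP u x with hR'
  have h1 : opE t x y * opR t (a u) u y = opE t x y * R' := by
    have e1 : opE t x y * opP u y = opE t x y * opE t u x := by
      have := opE_opP t (u := y) (v := x) (w := u) hxy.symm huy.symm hux.symm
      rw [opE_comm t y x, opP_comm y u, opE_comm t x u] at this
      exact this
    have e2 : opE t x y * opE t u y = opE t x y * opP u x := by
      have := opE_opP t (u := x) (v := y) (w := u) hxy hux.symm huy.symm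
      rw [opP_comm x u, opE_comm t y u] at this
      exact this.symm
    rw [hR']; unfold opR
    rw [mul_add, mul_add, mul_smul_comm, mul_smul_comm, mul_smul_comm, mul_smul_comm, e1, e2]
  have h2 : iK t a us y * R' = R' * iK t a us y := by
    apply iK_comm_of
    intro v hv
    have hvy : v ≠ y := fun h => hy (h ▸ hv)
    have hvu : v ≠ u := fun h => hu (h ▸ hv)
    have hvx : v ≠ x := fun h => hx (h ▸ hv)
    rw [hR', mul_add, add_mul, mul_smul_comm, mul_smul_comm, smul_mul_assoc, smul_mul_assoc,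
      opR_opE_disj t (a v) hvy hvu hvx huy.symm hxy.symm hux,
      opR_opP_disj t (a v) hvy hvu hvx huy.symm hxy.symm]
  have h3 : R' * (opG x 1 * opE t x y)
      = opG u 1 * (opR t (a u) u y * (opG x 1 * opE t x y)) * opG u (-1) := by
    have gE : opG u (-1) * opE t x y = opE t x y * opG u (-1) :=
      (opE_opG_disj t hxy hux.symm huy.symm (-1)).symm
    have EE1 : opE t u x * opE t x y = opP u y * opE t x y := by
      have := opE_opE t (u := y) (v := x) (w := u) hxy.symm huy.symm hux.symm
      rw [opE_comm t x u, opE_comm t y x, opP_comm y u] at this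
      exact this
    have EE2 : opE t u y * opE t x y = opP u x * opE t x y := by
      have := opE_opE t (u := x) (v := y) (w := u) hxy hux.symm huy.symm
      rw [opE_comm t y u, opP_comm x u] at this
      exact this
    have Gxy : opG x 1 * opE t x y = opG y (-1) * opE t x y := opG_opE t hxy 1
    have c1 : opE t u x * (opG x 1 * opE t x y)
        = opG u 1 * (opP u y * (opG x 1 * opE t x y)) * opG u (-1) := by
      have l : opE t u x * (opG x 1 * opE t x y) = opP u y * opE t x y * opG u (-1) := by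
        have := opE_opG t hux.symm 1
        rw [opE_comm t x u] at this
        rw [← mul_assoc, this, mul_assoc, gE, ← mul_assoc, EE1]
      have r : opG u 1 * (opP u y * (opG x 1 * opE t x y)) = opP u y * opE t x y := by
        rw [Gxy, ← mul_assoc (opP u y), opP_opG, Equiv.swap_apply_right, mul_assoc (opG u (-1)),
          ← mul_assoc, opG_opG_add]
        simp [opG_zero]
      rw [l, r]
    have c2 : opP u x * (opG x 1 * opE t x y)
        = opG u 1 * (opE t u y * (opG x 1 * opE t x y)) * opG u (-1) := by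
      have l : opP u x * (opG x 1 * opE t x y) = opG u 1 * opP u x * opE t x y := by
        rw [← mul_assoc, opP_opG, Equiv.swap_apply_right]
      have r : opE t u y * (opG x 1 * opE t x y) = opP u x * opE t x y * opG u 1 := by
        have e1 := opE_opG t huy.symm (-1)
        rw [opE_comm t y u, neg_neg] at e1
        have gE' : opG u 1 * opE t x y = opE t x y * opG u 1 :=
          (opE_opG_disj t hxy hux.symm huy.symm 1).symm
        rw [Gxy, ← mul_assoc, e1, mul_assoc, gE', ← mul_assoc, EE2]
      rw [l, r, ← mul_assoc (opG u 1), mul_assoc _ (opG u 1) (opG u (-1)), opG_opG_add]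
      simp [opG_zero, mul_assoc]
    rw [hR']; unfold opR
    simp only [add_mul, mul_add, smul_mul_assoc, mul_smul_comm]
    rw [c1, c2]
  have g1 : opG u 1 * opE t x y = opE t x y * opG u 1 :=
    (opE_opG_disj t hxy hux.symm huy.symm 1).symm
  have g2 : opG u 1 * iK t a us y = iK t a us y * opG u 1 := by
    symm
    apply iK_comm_of
    intro v hv
    exact opR_opG_disj t (a v) (u := v) (v := y) (w := u) (fun h => hy (h ▸ hv))
      (fun h => hu (h ▸ hv)) huy.symm 1
  unfold iT
  rw [iK_cons, iK_append, ← mul_assoc (opE t x y) (opR t (a u) u y), h1]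
  have hK1 : iK t a [u] y = opR t (a u) u y := by simp [iK]
  rw [hK1]
  calc opE t x y * R' * iK t a us y * (opG x 1 * opE t x y)
      = opE t x y * (R' * iK t a us y) * (opG x 1 * opE t x y) := by simp only [mul_assoc]
    _ = opE t x y * iK t a us y * (R' * (opG x 1 * opE t x y)) := by
        rw [← h2]; simp only [mul_assoc]
    _ = opE t x y * (iK t a us y * opG u 1) * (opR t (a u) u y * (opG x 1 * opE t x y))
          * opG u (-1) := by rw [h3]; simp only [mul_assoc]
    _ = (opE t x y * opG u 1) * iK t a us y * (opR t (a u) u y * (opG x 1 * opE t x y))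
          * opG u (-1) := by rw [← g2]; simp only [mul_assoc]
    _ = _ := by rw [← g1]; simp only [mul_assoc]

/-! ### degenerate points -/

theorem iabsorb_left_list (t : ℝ) {a a' : Λ → ℝ} {us : List Λ} {y y' : Λ} (hy : y ∉ us)
    (hy' : y' ∉ us) (hyy' : y ≠ y') (h : ∀ u ∈ us, (1 - a u) * a' u = 1) :
    opE t y y' * iKK t a a' us y y' = opE t y y' := by
  induction us with
  | nil => simp [iKK]
  | cons u us ih =>
    rw [List.mem_cons, not_or] at hy hy'
    rw [iKK_cons, ← mul_assoc, absorb_left t (Ne.symm hy.1) (Ne.symm hy'.1) hyy'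
      (h u List.mem_cons_self), ih hy.2 hy'.2 (fun v hv => h v (List.mem_cons_of_mem _ hv))]

theorem iabsorb_right_list (t : ℝ) {a a' : Λ → ℝ} {us : List Λ} {y y' : Λ} (hy : y ∉ us)
    (hy' : y' ∉ us) (hyy' : y ≠ y') (h : ∀ u ∈ us, (1 - a' u) * a u = 1) :
    iKK t a a' us y y' * opE t y y' = opE t y y' := by
  induction us with
  | nil => simp [iKK]
  | cons u us ih =>
    rw [List.mem_cons, not_or] at hy hy'
    rw [iKK_cons, mul_assoc, ih hy.2 hy'.2 (fun v hv => h v (List.mem_cons_of_mem _ hv)),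
      absorb_right t (Ne.symm hy.1) (Ne.symm hy'.1) hyy' (h u List.mem_cons_self)]

theorem iexchange_list (t : ℝ) {a a' : Λ → ℝ} {us : List Λ} {y y' : Λ} (hy : y ∉ us)
    (hy' : y' ∉ us) (hyy' : y ≠ y') (h : ∀ u ∈ us, (1 - a u) * a' u = 1) :
    iKK t a a' us y y' * (opE t y y' - 1) = (opE t y y' - 1) * iKK t a' a us y y' := by
  induction us with
  | nil => simp [iKK]
  | cons u us ih =>
    rw [List.mem_cons, not_or] at hy hy'
    rw [iKK_cons, iKK_cons, mul_assoc, ih hy.2 hy'.2 (fun v hv => h v (List.mem_cons_of_mem _ hv)),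
      ← mul_assoc, exchange t (Ne.symm hy.1) (Ne.symm hy'.1) hyy' (h u List.mem_cons_self)]
    simp only [mul_assoc]

/-! ### classes of states -/

theorem maps_iK_zg (t : ℝ) (a : Λ → ℝ) {us : List Λ} {y : Λ} (hy : y ∉ us) :
    Maps (iK t a us y) ZG ZG := by
  induction us with
  | nil => exact Maps.one _
  | cons u us ih =>
    rw [List.mem_cons, not_or] at hy
    rw [iK_cons]
    exact (maps_opR_zg t (a u) (Ne.symm hy.1)).mul (ih hy.2)

theorem iK_zg (t : ℝ) (a : Λ → ℝ) {us : List Λ} {y : Λ} (hy : y ∉ us) {s : St Λ} (h : ZG s)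
    (f : St Λ → ℝ) : iK t a us y f s = iK 1 a us y f s := by
  induction us generalizing s with
  | nil => rfl
  | cons u us ih =>
    rw [List.mem_cons, not_or] at hy
    rw [iK_cons, iK_cons, Module.End.mul_apply, Module.End.mul_apply, opR_zg t (a u) u y h]
    exact (maps_opR_zg 1 (a u) (Ne.symm hy.1)).congr (fun s' hs' => ih hy.2 hs') h

theorem iK_const (a : Λ → ℝ) (us : List Λ) (y : Λ) (c : ℝ) :
    iK 1 a us y (fun _ => c) = fun _ => c := by
  induction us with
  | nil => rfl
  | cons u us ih => rw [iK_cons, Module.End.mul_apply, ih, opR_const]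

/-- a property preserved by the crossings -/
theorem maps_iK_of (t : ℝ) (a : Λ → ℝ) {us : List Λ} {y : Λ} {A : St Λ → Prop}
    (h : ∀ u ∈ us, ∀ s, A s → A (St.swap u y s) ∧ A (St.join u y s)) :
    Maps (iK t a us y) A A := by
  induction us with
  | nil => exact Maps.one _
  | cons u us ih =>
    rw [iK_cons]
    exact (maps_opR t (a u) (h u List.mem_cons_self)).mul
      (ih fun v hv => h v (List.mem_cons_of_mem _ hv))

/-- value of a function which is constant on an invariant class -/
theorem iK_eq_const (a : Λ → ℝ) {us : List Λ} {y : Λ} {A : St Λ → Prop}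
    (h : ∀ u ∈ us, ∀ s, A s → A (St.swap u y s) ∧ A (St.join u y s)) {f : St Λ → ℝ} {c : ℝ}
    (hf : ∀ s, A s → f s = c) {s : St Λ} (hs : A s) : iK 1 a us y f s = c := by
  rw [(maps_iK_of 1 a h).congr (g := fun _ => c) hf hs, iK_const]

end Pool.Agent.H21.Perc
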