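import Mathlib
import Pool.Agent.H65.Perc.Through
import Pool.Agent.H65.Perc.Exp
import Pool.Agent.H21.Perc.IComm

/-!
# Probability that a line passes through a flat pattern, one weight for every strand
-/

namespace Pool.Agent.H21.Perc

open Pool.Agent.H65.Perc Pool.Agent.H65.Perc.St

variable {L : ℕ}

/-- the weights of the strands -/
def lw (w : ℤ → ℝ) : Lab L → ℝ := Sum.elim (fun i => w (i.val : ℤ)) (fun _ => 0)

theorem lw_inl (w : ℤ → ℝ) (i : Fin L) : lw w (Sum.inl i) = w i.val := rfl

namespace IThr

open Pool.Agent.H65.Perc.Thr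

open Classical in
/-- the weight of the exposed intervals from `j` on -/
noncomputable def P0 (w : ℤ → ℝ) (s : St (Lab L)) (j : ℕ) : ℝ :=
  (∏ c ∈ (Finset.range L).filter (fun c : ℕ => j ≤ c ∧ Ex0 s c), (1 - w c)) *
  (∏ c ∈ (Finset.range (L + 1)).filter (fun c : ℕ => j < c ∧ Ex0 s c), w ((c : ℤ) - 1))

theorem P0_last (w : ℤ → ℝ) (s : St (Lab L)) : P0 w s L = 1 := by
  classical
  unfold P0
  rw [Finset.filter_false_of_mem, Finset.filter_false_of_mem]
  · simp
  · intro c hc h
    rw [Finset.mem_range] at hc
    omega
  · intro c hc h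
    rw [Finset.mem_range] at hc
    omega

theorem P0_step (w : ℤ → ℝ) {s : St (Lab L)} (hs : Flat s) {j : ℕ} (hj : j < L) (he : Ex0 s j)
    {i : Fin L} (hi : s.p (Sum.inl ⟨j, hj⟩) = Sum.inl i) :
    P0 w s j = (1 - w j) * (w i.val * P0 w s (i.val + 1)) := by
  classical
  obtain ⟨hji, hex, -, -⟩ := next_exposed hs hj he hi
  have hiL := i.isLt
  have h1 : (Finset.range L).filter (fun c : ℕ => j ≤ c ∧ Ex0 s c)
      = insert j ((Finset.range L).filter (fun c : ℕ => i.val + 1 ≤ c ∧ Ex0 s c)) := by
    ext c
    simp only [Finset.mem_filter, Finset.mem_range, Finset.mem_insert]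
    constructor
    · rintro ⟨h1, h2, h3⟩
      rcases eq_or_lt_of_le h2 with h | h
      · left; exact h.symm
      · right
        refine ⟨h1, ?_, h3⟩
        by_contra h4
        have := h3 _ _ hi
        simp at this
        omega
    · rintro (h | ⟨h1, h2, h3⟩)
      · subst h
        exact ⟨hj, le_refl _, he⟩
      · exact ⟨h1, by omega, h3⟩
  have h2 : (Finset.range (L + 1)).filter (fun c : ℕ => j < c ∧ Ex0 s c)
      = insert (i.val + 1)
        ((Finset.range (L + 1)).filter (fun c : ℕ => i.val + 1 < c ∧ Ex0 s c)) := by
    ext c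
    simp only [Finset.mem_filter, Finset.mem_range, Finset.mem_insert]
    constructor
    · rintro ⟨h1, h2, h3⟩
      have := h3 _ _ hi
      simp at this
      by_cases h : c = i.val + 1
      · left; exact h
      · right
        exact ⟨h1, by omega, h3⟩
    · rintro (h | ⟨h1, h2, h3⟩)
      · subst h
        exact ⟨by omega, by omega, hex⟩
      · exact ⟨h1, by omega, h3⟩
  unfold P0
  rw [h1, h2, Finset.prod_insert, Finset.prod_insert]
  · push_cast
    ring_nf
  · simp only [Finset.mem_filter, not_and]
    intro _ h
    omega
  · simp only [Finset.mem_filter, Finset.mem_range, not_and]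
    intro _ h
    omega

/-- probability of getting through the remaining strands -/
noncomputable def iF (t : ℝ) (w : ℤ → ℝ) (k : Fin 3) (j : ℕ) (s : St (Lab L)) : ℝ :=
  (iK t (lw w) (rem L j) (ly k) (ind k)) s

theorem iF_last (t : ℝ) (w : ℤ → ℝ) (k : Fin 3) (s : St (Lab L)) : iF t w k L s = ind k s := by
  unfold iF
  rw [rem_last, iK_nil]
  rfl

theorem iF_step (t : ℝ) (w : ℤ → ℝ) (k : Fin 3) {j : ℕ} (hj : j < L) {s : St (Lab L)} (hz : Z s) :
    iF t w k j s = w j * iF t w k (j + 1) (swap (Sum.inl ⟨j, hj⟩) (ly k) s)
      + (1 - w j) * iF t w k (j + 1) (join (Sum.inl ⟨j, hj⟩) (ly k) s) := by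
  unfold iF
  rw [rem_cons hj, iK_cons, Module.End.mul_apply]
  unfold opR
  simp only [LinearMap.add_apply, LinearMap.smul_apply, Pi.add_apply, Pi.smul_apply, smul_eq_mul,
    opP_apply, opE_apply, hz.wt, one_mul, lw_inl]

/-- the backward induction -/
theorem imain (t : ℝ) (w : ℤ → ℝ) (k : Fin 3) {s0 : St (Lab L)} (h0 : Flat s0) :
    ∀ n j : ℕ, j + n = L → ∀ s : St (Lab L), Z s → Oth k s →
      ((CA k j s → iF t w k j s = 0) ∧
       (CB s0 k j s → iF t w k j s = P0 w s0 j) ∧
       (∀ i, CC s0 k j i s → iF t w k j s = w i.val * P0 w s0 (i.val + 1))) := by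
  intro n
  induction n with
  | zero =>
    intro j hj s hz ho
    have hj' : j = L := by omega
    subst hj'
    rw [iF_last]
    refine ⟨?_, ?_, ?_⟩
    · rintro ⟨i, hi, hp⟩
      unfold ind
      rw [if_neg]
      rw [hp]; exact inl_ne_ly _ _
    · rintro ⟨h1, h2, h3⟩
      unfold ind
      rw [if_pos h1]
      rw [P0_last]
    · rintro i ⟨h1, _⟩
      have := i.isLt
      omega
  | succ n ih =>
    intro j hj s hz ho
    have hjL : j < L := by omega
    rw [iF_step t w k hjL hz]
    have ih1 := ih (j + 1) (by omega) (swap (Sum.inl ⟨j, hjL⟩) (ly k) s) (hz.swap _ _)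
      (swap_oth ho _)
    have ih2 := ih (j + 1) (by omega) (join (Sum.inl ⟨j, hjL⟩) (ly k) s)
      (hz.join (inl_ne_ly _ _)) (join_oth ho _)
    have hxy : (lx k : Lab L) ≠ ly k := lx_ne_ly _ _
    have hxu : (lx k : Lab L) ≠ Sum.inl ⟨j, hjL⟩ := (inl_ne_lx _ _).symm
    have huy : (Sum.inl ⟨j, hjL⟩ : Lab L) ≠ ly k := inl_ne_ly _ _
    have hinv := s.inv
    refine ⟨?_, ?_, ?_⟩
    · -- case A
      rintro ⟨i, hi, hp⟩
      have hiu : (Sum.inl i : Lab L) ≠ Sum.inl ⟨j, hjL⟩ := by
        intro h
        simp only [Sum.inl.injEq] at h
        rw [h] at hi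
        simp at hi
      have e1 : CA k (j + 1) (swap (Sum.inl ⟨j, hjL⟩) (ly k) s) := by
        refine ⟨i, by omega, ?_⟩
        rw [swap_other hxu hxy (by rw [hp]; exact hiu) (by rw [hp]; exact inl_ne_ly _ _), hp]
      have e2 : CA k (j + 1) (join (Sum.inl ⟨j, hjL⟩) (ly k) s) := by
        refine ⟨i, by omega, ?_⟩
        rw [join_other huy hxu hxy (by rw [hp]; exact hiu) (by rw [hp]; exact inl_ne_ly _ _), hp]
      rw [ih1.1 e1, ih2.1 e2]
      ring
    · -- case B
      intro hB
      obtain ⟨hp, hex, hlater⟩ := id hB
      have hpy : s.p (ly k) = lx k := by rw [← hp, s.inv]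
      obtain ⟨i, hi⟩ := partner_strand h0.1 ⟨j, hjL⟩
      obtain ⟨hji, hexi, -, hin⟩ := next_exposed h0 hjL hex hi
      have hN := P0_step w h0 hjL hex hi
      have hsu : s.p (Sum.inl ⟨j, hjL⟩) = Sum.inl i := by rw [hlater _ (le_refl _), hi]
      have e1 : CA k (j + 1) (swap (Sum.inl ⟨j, hjL⟩) (ly k) s) := by
        refine ⟨⟨j, hjL⟩, by simp, ?_⟩
        rw [swap_p, Equiv.swap_apply_of_ne_of_ne hxu hxy, hp, Equiv.swap_apply_right]
      have e2 : CC s0 k (j + 1) i (join (Sum.inl ⟨j, hjL⟩) (ly k) s) := by
        refine ⟨by omega, ?_, hexi, ⟨⟨j, hjL⟩, hji, ?_⟩, ?_, ?_⟩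
        · rw [join_p huy, if_neg hxu, if_neg hxy, if_neg, if_pos hpy.symm, hsu]
          rw [hsu]; exact (inl_ne_lx _ _).symm
        · rw [join_p huy, if_neg huy.symm, if_pos rfl]
        · intro i' hi'
          by_cases hij : i'.val = j
          · left
            have : i' = ⟨j, hjL⟩ := Fin.ext hij
            rw [this, join_p huy, if_pos rfl]
          · right
            have hne : (Sum.inl i' : Lab L) ≠ Sum.inl ⟨j, hjL⟩ := by
              intro h
              simp only [Sum.inl.injEq] at h
              rw [h] at hij
              simp at hij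
            have key : ∃ i'' : Fin L, i''.val < i.val ∧ i''.val ≠ j ∧
                s.p (Sum.inl i') = Sum.inl i'' := by
              rcases lt_or_gt_of_ne hij with h | h
              · obtain ⟨i'', h1, h2⟩ := hB.low ho i' h
                exact ⟨i'', by omega, by omega, h2⟩
              · obtain ⟨i'', h2⟩ := partner_strand h0.1 i'
                have := hin _ _ h2 h hi'
                exact ⟨i'', this.2, by omega, by rw [hlater _ (by omega), h2]⟩
            obtain ⟨i'', h1, h2, h3⟩ := key
            refine ⟨i'', h1, ?_⟩
            rw [join_other huy hne (inl_ne_ly _ _), h3]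
            · rw [h3]
              intro h
              simp only [Sum.inl.injEq] at h
              rw [h] at h2
              simp at h2
            · rw [h3]; exact inl_ne_ly _ _
        · intro i' hi'
          have hne : (Sum.inl i' : Lab L) ≠ Sum.inl ⟨j, hjL⟩ := by
            intro h
            simp only [Sum.inl.injEq] at h
            rw [h] at hi'
            simp at hi'
            omega
          obtain ⟨i'', h2⟩ := partner_strand h0.1 i'
          have h3 : s.p (Sum.inl i') = Sum.inl i'' := by rw [hlater _ (by omega), h2]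
          rw [join_other huy hne (inl_ne_ly _ _), h3, h2]
          · rw [h3]
            intro h
            simp only [Sum.inl.injEq] at h
            rw [h] at h2
            have h4 := s0.inv (Sum.inl i')
            rw [h2, hi] at h4
            simp only [Sum.inl.injEq] at h4
            omega
          · rw [h3]; exact inl_ne_ly _ _
      rw [ih1.1 e1, ih2.2.2 i e2, hN]
      ring
    · -- case C
      rintro i ⟨h1, hp, hex, ⟨iy, hiy, hpy⟩, hlow, hlater⟩
      rcases eq_or_lt_of_le h1 with hji | hji
      · -- the strand `i` is crossed now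
        have hu : (Sum.inl ⟨j, hjL⟩ : Lab L) = Sum.inl i := by
          congr 1
          exact Fin.ext hji
        have hpi : s.p (Sum.inl i) = lx k := by rw [← hp, s.inv]
        rw [hu] at hxu huy ih1 ih2 ⊢
        have e1 : CB s0 k (j + 1) (swap (Sum.inl i) (ly k) s) := by
          refine ⟨?_, ?_, ?_⟩
          · rw [swap_p, Equiv.swap_apply_of_ne_of_ne hxu hxy, hp, Equiv.swap_apply_left]
          · rw [hji]; exact hex
          · intro i' hi'
            have hne : (Sum.inl i' : Lab L) ≠ Sum.inl i := by
              intro h
              simp only [Sum.inl.injEq] at h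
              rw [h] at hi'
              omega
            have h3 : s.p (Sum.inl i') = s0.p (Sum.inl i') := hlater i' (by omega)
            obtain ⟨i'', h2⟩ := partner_strand h0.1 i'
            rw [swap_other hne (inl_ne_ly _ _), h3]
            · rw [h3, h2]
              intro h
              rw [h] at h2
              rw [h2] at h3
              have h4 := hinv (Sum.inl i')
              rw [h3, hpi] at h4
              exact inl_ne_lx _ _ h4.symm
            · rw [h3, h2]; exact inl_ne_ly _ _
        have e2 : CA k (j + 1) (join (Sum.inl i) (ly k) s) := by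
          refine ⟨iy, by omega, ?_⟩
          rw [join_p huy, if_neg hxu, if_neg hxy, if_pos hpi.symm, hpy]
        rw [ih1.2.1 e1, ih2.1 e2, hji]
        ring
      · -- the strand `i` is crossed later
        have hui : (Sum.inl i : Lab L) ≠ Sum.inl ⟨j, hjL⟩ := by
          intro h
          simp only [Sum.inl.injEq] at h
          rw [h] at hji
          simp at hji
        have hupper : ∀ i' : Fin L, i.val < i'.val →
            s.p (Sum.inl i') ≠ Sum.inl ⟨j, hjL⟩ ∧ s.p (Sum.inl i') ≠ ly k := by
          intro i' hi'
          constructor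
          · intro h
            have h4 := hinv (Sum.inl i')
            rw [h] at h4
            rcases hlow ⟨j, hjL⟩ hji with h5 | ⟨i'', h5, h6⟩
            · rw [h4] at h5
              exact inl_ne_ly _ _ h5
            · rw [h4] at h6
              simp only [Sum.inl.injEq] at h6
              omega
          · intro h
            have h4 := hinv (Sum.inl i')
            rw [h, hpy] at h4
            simp only [Sum.inl.injEq] at h4
            omega
        have e1 : CC s0 k (j + 1) i (swap (Sum.inl ⟨j, hjL⟩) (ly k) s) := by
          refine ⟨by omega, ?_, hex, ?_, ?_, ?_⟩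
          · rw [swap_other hxu hxy (by rw [hp]; exact hui) (by rw [hp]; exact inl_ne_ly _ _), hp]
          · rw [swap_p, Equiv.swap_apply_right]
            rcases hlow ⟨j, hjL⟩ hji with h5 | ⟨i'', h5, h6⟩
            · rw [h5, Equiv.swap_apply_right]
              exact ⟨⟨j, hjL⟩, hji, rfl⟩
            · rw [h6]
              have : (Sum.inl i'' : Lab L) ≠ Sum.inl ⟨j, hjL⟩ := by
                intro h
                rw [h] at h6
                exact s.ne _ h6
              rw [Equiv.swap_apply_of_ne_of_ne this (inl_ne_ly _ _)]
              exact ⟨i'', h5, rfl⟩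
          · intro i' hi'
            rw [swap_p]
            by_cases hij : (Sum.inl i' : Lab L) = Sum.inl ⟨j, hjL⟩
            · rw [hij, Equiv.swap_apply_left, hpy]
              by_cases hyy : (Sum.inl iy : Lab L) = Sum.inl ⟨j, hjL⟩
              · rw [hyy, Equiv.swap_apply_left]
                left; rfl
              · rw [Equiv.swap_apply_of_ne_of_ne hyy (inl_ne_ly _ _)]
                right
                exact ⟨iy, hiy, rfl⟩
            · rw [Equiv.swap_apply_of_ne_of_ne hij (inl_ne_ly _ _)]
              rcases hlow i' hi' with h5 | ⟨i'', h5, h6⟩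
              · rw [h5, Equiv.swap_apply_right]
                right
                exact ⟨⟨j, hjL⟩, hji, rfl⟩
              · rw [h6]
                by_cases hij' : (Sum.inl i'' : Lab L) = Sum.inl ⟨j, hjL⟩
                · rw [hij', Equiv.swap_apply_left]
                  left; rfl
                · rw [Equiv.swap_apply_of_ne_of_ne hij' (inl_ne_ly _ _)]
                  right
                  exact ⟨i'', h5, rfl⟩
          · intro i' hi'
            obtain ⟨h5, h6⟩ := hupper i' hi'
            rw [swap_other _ (inl_ne_ly _ _) h5 h6, hlater i' hi']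
            intro h
            simp only [Sum.inl.injEq] at h
            rw [h] at hi'
            simp at hi'
            omega
        have e2 : CC s0 k (j + 1) i (join (Sum.inl ⟨j, hjL⟩) (ly k) s) := by
          refine ⟨by omega, ?_, hex, ?_, ?_, ?_⟩
          · rw [join_other huy hxu hxy (by rw [hp]; exact hui) (by rw [hp]; exact inl_ne_ly _ _),
              hp]
          · rw [join_p huy, if_neg huy.symm, if_pos rfl]
            exact ⟨⟨j, hjL⟩, hji, rfl⟩
          · intro i' hi'
            rw [join_p huy]
            split_ifs with g1 g2 g3 g4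
            · left; rfl
            · exact absurd g2 (inl_ne_ly _ _)
            · right
              exact ⟨iy, hiy, hpy⟩
            · rcases hlow ⟨j, hjL⟩ hji with h5 | ⟨i'', h5, h6⟩
              · left; exact h5
              · right; exact ⟨i'', h5, h6⟩
            · exact hlow i' hi'
          · intro i' hi'
            obtain ⟨h5, h6⟩ := hupper i' hi'
            rw [join_other huy _ (inl_ne_ly _ _) h5 h6, hlater i' hi']
            intro h
            simp only [Sum.inl.injEq] at h
            rw [h] at hi'
            simp at hi'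
            omega
        rw [ih1.2.2 i e1, ih2.2.2 i e2]
        ring

end IThr

open Classical in
/-- the weight of the exposed intervals -/
noncomputable def expW (w : ℤ → ℝ) (s : St (Lab L)) : ℝ :=
  ∏ c ∈ (Finset.range L).filter (fun c : ℕ => Exposed s (c : ℤ)), (w ((c : ℤ) - 1) * (1 - w c))

open Thr IThr in
/-- the line `k` gets through (its two ends stay paired) with probability `expW` -/
theorem ithrough (t : ℝ) {w : ℤ → ℝ} (hw : ∀ k, w (k + L) = w k) (k : Fin 3) (s : St (Lab L))
    (hs : Flat s) :
    (iK t (lw w) (strands L) (ly k) (fun s' => if s'.p (lx k) = ly k then 1 else 0)) s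
      = expW w s := by
  have hz : Z s := by
    rintro (i | ⟨k', b⟩)
    · exact hs.2.1 i
    · cases b
      · exact (hs.1 k').2
      · have h1 := s.gs (lx k')
        rw [(hs.1 k').1, (hs.1 k').2, neg_zero] at h1
        exact h1
  have ho : Oth k s := fun k' _ => (hs.1 k').1
  have hB : CB s k 0 s := by
    refine ⟨(hs.1 k).1, ?_, fun _ _ => rfl⟩
    intro i i' _
    simp
  have h1 := (imain t w k hs L 0 (by simp) s hz ho).2.1 hB
  have h2 : P0 w s 0 = expW w s := by
    classical
    unfold P0 expW
    rw [Finset.prod_mul_distrib, mul_comm]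
    have hex : ∀ c : ℕ, c ≤ L → (Exposed s (c : ℤ) ↔ Ex0 s c) :=
      fun c hc => Thr.exposed_iff hs.2.1 hc
    congr 1
    · -- shift by a period
      have e0 : Ex0 s 0 := by intro i i' _; simp
      have eL : Ex0 s L := by
        intro i i' _
        simp [i.isLt, i'.isLt]
      rcases Nat.eq_zero_or_pos L with h0 | hL
      · subst h0
        rw [Finset.filter_false_of_mem (s := Finset.range (0 + 1)) (fun c hc h => by
          rw [Finset.mem_range] at hc; omega)]
        simp
      have s1 : (Finset.range (L + 1)).filter (fun c : ℕ => 0 < c ∧ Ex0 s c)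
          = insert L ((Finset.range L).filter (fun c : ℕ => 0 < c ∧ Ex0 s c)) := by
        ext c
        simp only [Finset.mem_filter, Finset.mem_range, Finset.mem_insert]
        constructor
        · rintro ⟨h1, h2, h3⟩
          by_cases h : c = L
          · left; exact h
          · right; exact ⟨by omega, h2, h3⟩
        · rintro (h | ⟨h1, h2, h3⟩)
          · subst h; exact ⟨by omega, hL, eL⟩
          · exact ⟨by omega, h2, h3⟩
      have s2 : (Finset.range L).filter (fun c : ℕ => Exposed s (c : ℤ))
          = insert 0 ((Finset.range L).filter (fun c : ℕ => 0 < c ∧ Ex0 s c)) := by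
        ext c
        simp only [Finset.mem_filter, Finset.mem_range, Finset.mem_insert]
        constructor
        · rintro ⟨h1, h2⟩
          rw [hex c h1.le] at h2
          by_cases h : c = 0
          · left; exact h
          · right; exact ⟨h1, by omega, h2⟩
        · rintro (h | ⟨h1, h2, h3⟩)
          · subst h; exact ⟨hL, (hex 0 (by omega)).2 e0⟩
          · exact ⟨h1, (hex c h1.le).2 h3⟩
      rw [s1, s2, Finset.prod_insert, Finset.prod_insert]
      · congr 1
        have := hw (-1)
        rw [show (-1 : ℤ) + L = (L : ℤ) - 1 by ring] at this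
        rw [this]
        simp
      · simp
      · simp
    · refine Finset.prod_congr ?_ (fun _ _ => rfl)
      apply Finset.filter_congr
      intro c hc
      rw [Finset.mem_range] at hc
      rw [hex c hc.le]
      simp
  rw [h2] at h1
  unfold iF at h1
  rw [rem_zero] at h1
  exact h1

end Pool.Agent.H21.Perc
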