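import Mathlib
import Pool.Agent.H65.Perc.Star
import Pool.Agent.H21.Perc.IThrough

/-!
# The three-row identity, one weight for every strand
-/

namespace Pool.Agent.H21.Perc

open Pool.Agent.H65.Perc Pool.Agent.H65.Perc.St

variable {L : ℕ}

theorem imaps_sweep_aux (t : ℝ) (a : Lab L → ℝ) (k : Fin 3) (d : ℕ) : ∀ j, j + d = L →
    Maps (iK t a (((List.finRange L).drop j).map Sum.inl) (ly k)) (PS (L := L) k j) (PS k L) := by
  induction d with
  | zero =>
    intro j hj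
    simp only [add_zero] at hj
    subst hj
    rw [List.drop_of_length_le (by simp)]
    exact Maps.one _
  | succ d ih =>
    intro j hj
    have hjL : j < L := by omega
    have hcons : (List.finRange L).drop j = ⟨j, hjL⟩ :: (List.finRange L).drop (j + 1) := by
      rw [List.drop_eq_getElem_cons (by simpa using hjL)]
      simp
    rw [hcons, List.map_cons, iK_cons]
    refine Maps.mul (B := PS k (j + 1)) (maps_opR t _ ?_) (ih (j + 1) (by omega))
    intro s hs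
    have hne : (Sum.inl ⟨j, hjL⟩ : Lab L) ≠ ly k := by simp [ly]
    have h1 : posS k j (ly k : Lab L) = j := by simp [posS, ly]
    have h2 : posS k j (Sum.inl ⟨j, hjL⟩ : Lab L) = j + 1 := by simp [posS]
    have := NC_step (posS_inj k hjL.le) (u := (Sum.inl ⟨j, hjL⟩ : Lab L)) (v := ly k)
      (by rw [h1, h2]; omega) (by intro w; rw [h1, h2]; omega) hs.2
    rw [← posS_succ k hjL] at this
    exact ⟨⟨hs.1.swap _ _, this.1⟩, ⟨hs.1.join hne, this.2⟩⟩

theorem imaps_sweep (t : ℝ) (a : Lab L → ℝ) (k : Fin 3) :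
    Maps (iK t a (strands L) (ly k)) (PS (L := L) k 0) (PS k L) := by
  have := imaps_sweep_aux (L := L) t a k L 0 (by omega)
  simpa [strands] using this


/-- `K` commutes with `E` on other line ends -/
theorem iK_comm_E (t : ℝ) (a : Lab L → ℝ) {y v w : Lab L} (hy : y ∉ strands L) (hv : v ∉ strands L)
    (hw : w ∉ strands L) (hyv : y ≠ v) (hyw : y ≠ w) (hvw : v ≠ w) :
    iK t a (strands L) y * opE t v w = opE t v w * iK t a (strands L) y := by
  apply iK_comm_of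
  intro u hu
  exact opR_opE_disj t (a u) (mem_ne hu hy) (mem_ne hu hv) (mem_ne hu hw) hyv hyw hvw

theorem iK_comm_G (t : ℝ) (a : Lab L → ℝ) {y v : Lab L} (hy : y ∉ strands L) (hv : v ∉ strands L)
    (hyv : y ≠ v) (k : ℤ) :
    iK t a (strands L) y * opG v k = opG v k * iK t a (strands L) y := by
  apply iK_comm_of
  intro u hu
  exact opR_opG_disj t (a u) (mem_ne hu hy) (mem_ne hu hv) hyv k

theorem iT_eq (t : ℝ) (a : Lab L → ℝ) (k : Fin 3) :
    iT t a (strands L) (lx k) (ly k)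
      = opE t (lx k) (ly k) * iK t a (strands L) (ly k) * opJ t k := rfl

theorem iJ_comm_K (t : ℝ) (a : Lab L → ℝ) {k m : Fin 3} (h : k ≠ m) :
    opJ t k * iK t a (strands L) (ly m) = iK t a (strands L) (ly m) * opJ t k := by
  unfold opJ
  rw [mul_assoc, ← iK_comm_E t a (ly_notin m) (lx_notin k) (ly_notin k) (lx_ne_ly k m).symm
    (ly_ne h.symm) (lx_ne_ly k k), ← mul_assoc, ← iK_comm_G t a (ly_notin m) (lx_notin k)
    (lx_ne_ly k m).symm 1, mul_assoc]

theorem iJ_comm_T (t : ℝ) (a : Lab L → ℝ) {k m : Fin 3} (h : k ≠ m) :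
    opJ t k * (opE t (lx m) (ly m) * iK t a (strands L) (ly m))
      = opE t (lx m) (ly m) * iK t a (strands L) (ly m) * opJ t k := by
  rw [← mul_assoc, J_comm_E t h, mul_assoc, iJ_comm_K t a h, mul_assoc]

/-- rearrangement of the product of three row operators -/
theorem ithree_rows (t : ℝ) (a0 a1 a2 : Lab L → ℝ) :
    iT t a0 (strands L) (lx 0) (ly 0) * (iT t a1 (strands L) (lx 1) (ly 1) *
        iT t a2 (strands L) (lx 2) (ly 2))
      = opE t (lx 0) (ly 0) * (opE t (lx 1) (ly 1) * opE t (lx 2) (ly 2)) *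
        (iK t a0 (strands L) (ly 0) * (iK t a1 (strands L) (ly 1) *
          iK t a2 (strands L) (ly 2))) * (opJ t 0 * (opJ t 1 * opJ t 2)) := by
  have h01 : (0 : Fin 3) ≠ 1 := by decide
  have h02 : (0 : Fin 3) ≠ 2 := by decide
  have h12 : (1 : Fin 3) ≠ 2 := by decide
  rw [iT_eq, iT_eq, iT_eq]
  set E0 : Op (Lab L) := opE t (lx 0) (ly 0)
  set E1 : Op (Lab L) := opE t (lx 1) (ly 1)
  set E2 : Op (Lab L) := opE t (lx 2) (ly 2)
  set K0 := iK t a0 (strands L) (ly 0)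
  set K1 := iK t a1 (strands L) (ly 1)
  set K2 := iK t a2 (strands L) (ly 2)
  have c1 : opJ t 1 * (E2 * K2) = E2 * K2 * opJ t 1 := iJ_comm_T t a2 h12
  have c0 : opJ t 0 * (E2 * K2) = E2 * K2 * opJ t 0 := iJ_comm_T t a2 h02
  have c0' : opJ t 0 * (E1 * K1) = E1 * K1 * opJ t 0 := iJ_comm_T t a1 h01
  have k01 : K0 * E1 = E1 * K0 := iK_comm_E t a0 (ly_notin 0) (lx_notin 1) (ly_notin 1)
    (lx_ne_ly 1 0).symm (ly_ne h01) (lx_ne_ly 1 1)
  have k02 : K0 * E2 = E2 * K0 := iK_comm_E t a0 (ly_notin 0) (lx_notin 2) (ly_notin 2)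
    (lx_ne_ly 2 0).symm (ly_ne h02) (lx_ne_ly 2 2)
  have k12 : K1 * E2 = E2 * K1 := iK_comm_E t a1 (ly_notin 1) (lx_notin 2) (ly_notin 2)
    (lx_ne_ly 2 1).symm (ly_ne h12) (lx_ne_ly 2 2)
  calc E0 * K0 * opJ t 0 * (E1 * K1 * opJ t 1 * (E2 * K2 * opJ t 2))
      = E0 * K0 * (opJ t 0 * (E1 * K1)) * (opJ t 1 * (E2 * K2)) * opJ t 2 := by
        simp only [mul_assoc]
    _ = E0 * K0 * E1 * K1 * (opJ t 0 * (E2 * K2)) * opJ t 1 * opJ t 2 := by
        rw [c0', c1]; simp only [mul_assoc]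
    _ = E0 * (K0 * E1) * (K1 * E2) * K2 * (opJ t 0 * (opJ t 1 * opJ t 2)) := by
        rw [c0]; simp only [mul_assoc]
    _ = E0 * E1 * (K0 * E2) * K1 * K2 * (opJ t 0 * (opJ t 1 * opJ t 2)) := by
        rw [k01, k12]; simp only [mul_assoc]
    _ = _ := by rw [k02]; simp only [mul_assoc]

/-- on gain-free states, products of the `K`s do not depend on the loop weight -/
theorem iKKK_zg (t : ℝ) (a0 a1 a2 : Lab L → ℝ) {s : St (Lab L)} (hs : ZG s) (f : St (Lab L) → ℝ) :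
    (iK t a0 (strands L) (ly 0) * (iK t a1 (strands L) (ly 1) *
        iK t a2 (strands L) (ly 2)) : Op (Lab L)) f s
      = (iK 1 a0 (strands L) (ly 0) * (iK 1 a1 (strands L) (ly 1) *
        iK 1 a2 (strands L) (ly 2)) : Op (Lab L)) f s := by
  simp only [Module.End.mul_apply]
  rw [iK_zg t a0 (ly_notin 0) hs]
  refine (maps_iK_zg 1 a0 (ly_notin 0)).congr (fun s' hs' => ?_) hs
  rw [iK_zg t a1 (ly_notin 1) hs']
  refine (maps_iK_zg 1 a1 (ly_notin 1)).congr (fun s'' hs'' => ?_) hs'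
  rw [iK_zg t a2 (ly_notin 2) hs'']

theorem imaps_KKK (t : ℝ) (a0 a1 a2 : Lab L → ℝ) :
    Maps (iK t a0 (strands L) (ly 0) * (iK t a1 (strands L) (ly 1) *
        iK t a2 (strands L) (ly 2)) : Op (Lab L)) (PS 0 0) (PS 2 L) := by
  refine (imaps_sweep t a0 0).mul (Maps.mul (B := PS 1 L) ?_ ?_)
  · exact (imaps_sweep t a1 1).mono (fun s hs => PS_next (by rfl) hs) (fun _ h => h)
  · exact (imaps_sweep t a2 2).mono (fun s hs => PS_next (by rfl) hs) (fun _ h => h)

section Identities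

variable {a0 a1 a2 : Lab L → ℝ} (h01 : ∀ u ∈ strands L, (1 - a0 u) * a1 u = 1)
  (h12 : ∀ u ∈ strands L, (1 - a1 u) * a2 u = 1) (h20 : ∀ u ∈ strands L, (1 - a2 u) * a0 u = 1)

/-- the three sweeps at loop weight 1 -/
noncomputable def iKK3 (a0 a1 a2 : Lab L → ℝ) : Op (Lab L) :=
  iK 1 a0 (strands L) (ly 0) * (iK 1 a1 (strands L) (ly 1) * iK 1 a2 (strands L) (ly 2))

include h01 in
theorem iid_one : opE 1 (ly 0) (ly 1) * iKK3 (L := L) a0 a1 a2
    = iK 1 a2 (strands L) (ly 2) * opE 1 (ly 0) (ly 1) := by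
  have h : opE 1 (ly 0) (ly 1) * (iK 1 a0 (strands L) (ly 0) * iK 1 a1 (strands L) (ly 1))
      = opE 1 (ly 0) (ly 1) := by
    rw [iK_mul_iK 1 a0 a1 strands_nodup (ly_ne (by decide)) (ly_notin 0) (ly_notin 1),
      iabsorb_left_list 1 (ly_notin 0) (ly_notin 1) (ly_ne (by decide)) h01]
  unfold iKK3
  rw [← mul_assoc (iK 1 a0 _ _), ← mul_assoc, h,
    iK_comm_E 1 a2 (ly_notin 2) (ly_notin 0) (ly_notin 1) (ly_ne (by decide)) (ly_ne (by decide))
      (ly_ne (by decide))]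

include h12 in
theorem iid_two : opE 1 (ly 1) (ly 2) * iKK3 (L := L) a0 a1 a2
    = iK 1 a0 (strands L) (ly 0) * opE 1 (ly 1) (ly 2) := by
  have h : opE 1 (ly 1) (ly 2) * (iK 1 a1 (strands L) (ly 1) * iK 1 a2 (strands L) (ly 2))
      = opE 1 (ly 1) (ly 2) := by
    rw [iK_mul_iK 1 a1 a2 strands_nodup (ly_ne (by decide)) (ly_notin 1) (ly_notin 2),
      iabsorb_left_list 1 (ly_notin 1) (ly_notin 2) (ly_ne (by decide)) h12]
  unfold iKK3
  rw [← mul_assoc (opE 1 (ly 1) (ly 2)),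
    ← iK_comm_E 1 a0 (ly_notin 0) (ly_notin 1) (ly_notin 2) (ly_ne (by decide))
      (ly_ne (by decide)) (ly_ne (by decide)), mul_assoc, h]

include h01 h20 in
theorem iid_three : iKK3 (L := L) a0 a1 a2 * ((opE 1 (ly 0) (ly 1) - 1) * opE 1 (ly 1) (ly 2))
    = (opE 1 (ly 0) (ly 1) - 1) * (opE 1 (ly 1) (ly 2) * iK 1 a1 (strands L) (ly 0)) := by
  have e1 : iK 1 a2 (strands L) (ly 2) * (opE 1 (ly 0) (ly 1) - 1)
      = (opE 1 (ly 0) (ly 1) - 1) * iK 1 a2 (strands L) (ly 2) := by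
    rw [mul_sub, sub_mul, mul_one, one_mul,
      iK_comm_E 1 a2 (ly_notin 2) (ly_notin 0) (ly_notin 1) (ly_ne (by decide))
        (ly_ne (by decide)) (ly_ne (by decide))]
  have e2 : iK 1 a0 (strands L) (ly 0) * iK 1 a1 (strands L) (ly 1) *
      (opE 1 (ly 0) (ly 1) - 1)
      = (opE 1 (ly 0) (ly 1) - 1) * (iK 1 a1 (strands L) (ly 0) * iK 1 a0 (strands L) (ly 1)) := by
    rw [iK_mul_iK 1 a0 a1 strands_nodup (ly_ne (by decide)) (ly_notin 0) (ly_notin 1),
      iK_mul_iK 1 a1 a0 strands_nodup (ly_ne (by decide)) (ly_notin 0) (ly_notin 1),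
      iexchange_list 1 (ly_notin 0) (ly_notin 1) (ly_ne (by decide)) h01]
  have e3 : iK 1 a0 (strands L) (ly 1) * iK 1 a2 (strands L) (ly 2) * opE 1 (ly 1) (ly 2)
      = opE 1 (ly 1) (ly 2) := by
    rw [iK_mul_iK 1 a0 a2 strands_nodup (ly_ne (by decide)) (ly_notin 1) (ly_notin 2),
      iabsorb_right_list 1 (ly_notin 1) (ly_notin 2) (ly_ne (by decide)) h20]
  unfold iKK3
  calc iK 1 a0 (strands L) (ly 0) * (iK 1 a1 (strands L) (ly 1) * iK 1 a2 (strands L) (ly 2))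
        * ((opE 1 (ly 0) (ly 1) - 1) * opE 1 (ly 1) (ly 2))
      = iK 1 a0 (strands L) (ly 0) * iK 1 a1 (strands L) (ly 1) *
          (iK 1 a2 (strands L) (ly 2) * (opE 1 (ly 0) (ly 1) - 1)) * opE 1 (ly 1) (ly 2) := by
        simp only [mul_assoc]
    _ = (iK 1 a0 (strands L) (ly 0) * iK 1 a1 (strands L) (ly 1) *
          (opE 1 (ly 0) (ly 1) - 1)) * iK 1 a2 (strands L) (ly 2) * opE 1 (ly 1) (ly 2) := by
        rw [e1]; simp only [mul_assoc]
    _ = (opE 1 (ly 0) (ly 1) - 1) * iK 1 a1 (strands L) (ly 0) *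
          (iK 1 a0 (strands L) (ly 1) * iK 1 a2 (strands L) (ly 2) * opE 1 (ly 1) (ly 2)) := by
        rw [e2]; simp only [mul_assoc]
    _ = _ := by
        rw [e3, mul_assoc, iK_comm_E 1 a1 (ly_notin 0) (ly_notin 1) (ly_notin 2)
          (ly_ne (by decide)) (ly_ne (by decide)) (ly_ne (by decide))]

end Identities


/-- the difference test function -/
theorem iKK3_diff {a0 a1 a2 : Lab L → ℝ} (h01 : ∀ u ∈ strands L, (1 - a0 u) * a1 u = 1)
    (h20 : ∀ u ∈ strands L, (1 - a2 u) * a0 u = 1)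
    (h : Code → ℤ) (s : St (Lab L)) :
    iKK3 a0 a1 a2 (fun s' => (cdiff h (code s') : ℝ)) s
      = iK 1 a1 (strands L) (ly 0) (fun s' => (h (code s') : ℝ)) (join (ly 1) (ly 2) s)
        - iK 1 a1 (strands L) (ly 0) (fun s' => (h (code s') : ℝ))
            (join (ly 1) (ly 2) (join (ly 0) (ly 1) s)) := by
  have e1 : (fun s' : St (Lab L) => (cdiff h (code s') : ℝ))
      = -(((opE 1 (ly 0) (ly 1) - 1) * opE 1 (ly 1) (ly 2) : Op (Lab L))
          (fun s' => (h (code s') : ℝ))) := by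
    funext s'
    simp only [Module.End.mul_apply, LinearMap.sub_apply, Module.End.one_apply, Pi.neg_apply,
      Pi.sub_apply, opE_one]
    have c1 : code (join (ly 1) (ly 2) s') = cjoin 4 3 (code s') :=
      code_join (u := 4) (v := 3) (by decide) s'
    have c2 : code (join (ly 1) (ly 2) (join (ly 0) (ly 1) s'))
        = cjoin 4 3 (cjoin 5 4 (code s')) := by
      have := code_join (L := L) (u := 4) (v := 3) (by decide) (join (ly 0) (ly 1) s')
      have h2 := code_join (L := L) (u := 5) (v := 4) (by decide) s'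
      have h3 : code (join (ly 0) (ly 1) s') = cjoin 5 4 (code s') := h2
      rw [h3] at this
      exact this
    rw [c1, c2]
    unfold cdiff
    push_cast
    ring
  rw [e1, map_neg, Pi.neg_apply, ← Module.End.mul_apply, iid_three h01 h20]
  simp only [Module.End.mul_apply, LinearMap.sub_apply, Module.End.one_apply,
    Pi.sub_apply, opE_one]
  ring


variable {w0 w1 w2 : ℤ → ℝ}

theorem strand_rel {v w : ℤ → ℝ} (h : ∀ k, (1 - v k) * w k = 1) :
    ∀ u ∈ strands L, (1 - lw v u) * lw w u = 1 := by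
  intro u hu
  simp only [strands, List.mem_map, List.mem_finRange, true_and] at hu
  obtain ⟨i, rfl⟩ := hu
  exact h _

theorem iA3_eq {s : St (Lab L)} (hs : Flat s) (h01 : ∀ k, (1 - w0 k) * w1 k = 1) (h20 : ∀ k, (1 - w2 k) * w0 k = 1) :
    iKK3 (lw w0) (lw w1) (lw w2) (fun s' => (cn3 (code s') : ℝ)) s = 1 := by
  unfold cn3
  rw [iKK3_diff (strand_rel h01) (strand_rel h20)]
  have e1 : iK 1 (lw w1) (strands L) (ly 0) (fun s' => (tx12 (code s') : ℝ)) (join (ly 1) (ly 2) s)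
      = 1 := by
    refine iK_eq_const (lw w1) (A := fun s' => s'.p (lx 1) = lx 2)
      (pair_inv (lx_notin 1) (lx_notin 2) (lx_ne_ly 1 0) (lx_ne_ly 2 0)) (fun s' hs' => ?_)
      (s1_x1 hs)
    rw [tx12_eq, if_pos hs']; norm_num
  have e2 : iK 1 (lw w1) (strands L) (ly 0) (fun s' => (tx12 (code s') : ℝ))
      (join (ly 1) (ly 2) (join (ly 0) (ly 1) s)) = 0 := by
    refine iK_eq_const (lw w1) (A := fun s' => s'.p (lx 1) = lx 0)
      (pair_inv (lx_notin 1) (lx_notin 0) (lx_ne_ly 1 0) (lx_ne_ly 0 0)) (fun s' hs' => ?_)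
      (s2_x1 hs)
    rw [tx12_eq, if_neg (by rw [hs']; exact lx_ne (by decide))]; norm_num
  rw [e1, e2]; norm_num

theorem iA2_eq {s : St (Lab L)} (hs : Flat s) (h01 : ∀ k, (1 - w0 k) * w1 k = 1) (h20 : ∀ k, (1 - w2 k) * w0 k = 1) :
    iKK3 (lw w0) (lw w1) (lw w2) (fun s' => (cdiff tfree (code s') : ℝ)) s = 0 := by
  rw [iKK3_diff (strand_rel h01) (strand_rel h20)]
  have e1 : iK 1 (lw w1) (strands L) (ly 0) (fun s' => (tfree (code s') : ℝ)) (join (ly 1) (ly 2) s)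
      = 0 := by
    refine iK_eq_const (lw w1) (A := fun s' => s'.p (lx 1) = lx 2)
      (pair_inv (lx_notin 1) (lx_notin 2) (lx_ne_ly 1 0) (lx_ne_ly 2 0)) (fun s' hs' => ?_)
      (s1_x1 hs)
    rw [tfree_zero hs']; norm_num
  have e2 : iK 1 (lw w1) (strands L) (ly 0) (fun s' => (tfree (code s') : ℝ))
      (join (ly 1) (ly 2) (join (ly 0) (ly 1) s)) = 0 := by
    refine iK_eq_const (lw w1) (A := fun s' => s'.p (lx 1) = lx 0)
      (pair_inv (lx_notin 1) (lx_notin 0) (lx_ne_ly 1 0) (lx_ne_ly 0 0)) (fun s' hs' => ?_)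
      (s2_x1 hs)
    rw [tfree_zero hs']; norm_num
  rw [e1, e2]; norm_num

theorem iA0_eq {s : St (Lab L)} (hs : Flat s) (p1 : ∀ k, w1 (k + L) = w1 k) (h01 : ∀ k, (1 - w0 k) * w1 k = 1) (h20 : ∀ k, (1 - w2 k) * w0 k = 1) :
    iKK3 (lw w0) (lw w1) (lw w2) (fun s' => (cdiff tx0y0 (code s') : ℝ)) s = expW w1 s := by
  rw [iKK3_diff (strand_rel h01) (strand_rel h20)]
  have e2 : iK 1 (lw w1) (strands L) (ly 0) (fun s' => (tx0y0 (code s') : ℝ))
      (join (ly 1) (ly 2) (join (ly 0) (ly 1) s)) = 0 := by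
    refine iK_eq_const (lw w1) (A := fun s' => s'.p (lx 0) = lx 1)
      (pair_inv (lx_notin 0) (lx_notin 1) (lx_ne_ly 0 0) (lx_ne_ly 1 0)) (fun s' hs' => ?_)
      (s2_x0 hs)
    rw [tx0y0_eq, if_neg (by rw [hs']; exact lx_ne_ly 1 0)]; norm_num
  have e1 : iK 1 (lw w1) (strands L) (ly 0) (fun s' => (tx0y0 (code s') : ℝ)) (join (ly 1) (ly 2) s)
      = expW w1 s := by
    have c := iK_comm_E (L := L) 1 (lw w1) (ly_notin 0) (ly_notin 1) (ly_notin 2) (ly_ne (by decide))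
      (ly_ne (by decide)) (ly_ne (show (1 : Fin 3) ≠ 2 by decide))
    have : iK 1 (lw w1) (strands L) (ly 0) (fun s' => (tx0y0 (code s') : ℝ)) (join (ly 1) (ly 2) s)
        = (opE 1 (ly 1) (ly 2) * iK 1 (lw w1) (strands L) (ly 0) : Op (Lab L))
          (fun s' => (tx0y0 (code s') : ℝ)) s := by
      rw [Module.End.mul_apply, opE_one]
    rw [this, ← c, Module.End.mul_apply, ← ithrough 1 p1 0 s hs]
    refine (maps_iK_of 1 (lw w1) (A := fun s' => s'.p (lx 1) = ly 1 ∧ s'.p (lx 2) = ly 2)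
      (idle2_inv (by decide) (by decide))).congr (fun s' hs' => ?_)
      ⟨flat_px hs 1, flat_px hs 2⟩
    rw [opE_one, tx0y0_eq]
    have := join_two_idle (s := s') (k := 1) (m := 2) (j := 0) (by decide) (by decide) (by decide)
      hs'.1 hs'.2
    by_cases h : s'.p (lx 0) = ly 0
    · rw [if_pos h, if_pos (this.2 h)]; norm_num
    · rw [if_neg h, if_neg (fun h' => h (this.1 h'))]; norm_num
  rw [e1, e2, sub_zero]

theorem iB1_eq {s : St (Lab L)} (hs : Flat s) (p2 : ∀ k, w2 (k + L) = w2 k) (h01 : ∀ k, (1 - w0 k) * w1 k = 1) :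
    iKK3 (lw w0) (lw w1) (lw w2) (fun s' => (tx2y2 (cjoin 0 1 (code s')) : ℝ)) s = expW w2 s := by
  have e1 : (fun s' : St (Lab L) => (tx2y2 (cjoin 0 1 (code s')) : ℝ))
      = opE 1 (lx 0) (lx 1) (fun s' => (tx2y2 (code s') : ℝ)) := by
    funext s'
    rw [opE_one]
    have c1 : code (join (lx 0) (lx 1) s') = cjoin 0 1 (code s') :=
      code_join (u := 0) (v := 1) (by decide) s'
    rw [c1]
  have c : iKK3 (L := L) (lw w0) (lw w1) (lw w2) * opE 1 (lx 0) (lx 1) = opE 1 (lx 0) (lx 1) * iKK3 (lw w0) (lw w1) (lw w2) := by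
    have ck := fun (a : Lab L → ℝ) (k : Fin 3) => iK_comm_E (L := L) 1 a (ly_notin k) (lx_notin 0)
      (lx_notin 1) (lx_ne_ly 0 k).symm (lx_ne_ly 1 k).symm (lx_ne (by decide))
    unfold iKK3
    rw [mul_assoc, mul_assoc, ck, ← mul_assoc (iK 1 (lw w1) _ _), ck, ← mul_assoc, ← mul_assoc, ck]
    simp only [mul_assoc]
  -- joining the left ends of idle lines is joining the right ends
  have hj : join (lx 0) (lx 1) s = join (ly 0) (ly 1) s := by
    have hgx := fun k => (hs.1 k).2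
    have hgy : ∀ k : Fin 3, s.g (ly k) = 0 := fun k => by rw [← flat_px hs k, s.gs, hgx]; rfl
    ext w
    · rw [join_p (lx_ne (by decide)), join_p (ly_ne (by decide)), flat_px hs, flat_px hs,
        flat_py hs, flat_py hs]
      have h1 := lx_ne_ly (L := L) 0 0; have h2 := lx_ne_ly (L := L) 0 1
      have h3 := lx_ne_ly (L := L) 1 0; have h4 := lx_ne_ly (L := L) 1 1
      grind
    · rw [join_g (lx_ne (by decide)), join_g (ly_ne (by decide)), flat_px hs, flat_px hs,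
        flat_py hs, flat_py hs, hgx, hgx, hgy, hgy]
      have h1 := lx_ne_ly (L := L) 0 0; have h2 := lx_ne_ly (L := L) 0 1
      have h3 := lx_ne_ly (L := L) 1 0; have h4 := lx_ne_ly (L := L) 1 1
      grind
  have e3 : iKK3 (lw w0) (lw w1) (lw w2) (fun s' => (tx2y2 (code s') : ℝ)) (join (ly 0) (ly 1) s)
      = (opE 1 (ly 0) (ly 1) * iKK3 (lw w0) (lw w1) (lw w2) : Op (Lab L)) (fun s' => (tx2y2 (code s') : ℝ)) s := by
    rw [Module.End.mul_apply, opE_one]
  rw [e1, ← Module.End.mul_apply, c, Module.End.mul_apply, opE_one, hj, e3, iid_one (strand_rel h01),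
    Module.End.mul_apply, ← ithrough 1 p2 2 s hs]
  refine (maps_iK_of 1 (lw w2) (A := fun s' => s'.p (lx 0) = ly 0 ∧ s'.p (lx 1) = ly 1)
      (idle2_inv (by decide) (by decide))).congr (fun s' hs' => ?_)
      ⟨flat_px hs 0, flat_px hs 1⟩
  rw [opE_one, tx2y2_eq]
  have := join_two_idle (s := s') (k := 0) (m := 1) (j := 2) (by decide) (by decide) (by decide)
    hs'.1 hs'.2
  by_cases h : s'.p (lx 2) = ly 2
  · rw [if_pos h, if_pos (this.2 h)]; norm_num
  · rw [if_neg h, if_neg (fun h' => h (this.1 h'))]; norm_num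

theorem iB2_eq {s : St (Lab L)} (hs : Flat s) (p0 : ∀ k, w0 (k + L) = w0 k) (h12 : ∀ k, (1 - w1 k) * w2 k = 1) :
    iKK3 (lw w0) (lw w1) (lw w2) (fun s' => (tx0y0' (cjoin 1 2 (code s')) : ℝ)) s = expW w0 s := by
  have e1 : (fun s' : St (Lab L) => (tx0y0' (cjoin 1 2 (code s')) : ℝ))
      = opE 1 (lx 1) (lx 2) (fun s' => (tx0y0' (code s') : ℝ)) := by
    funext s'
    rw [opE_one]
    have c1 : code (join (lx 1) (lx 2) s') = cjoin 1 2 (code s') :=
      code_join (u := 1) (v := 2) (by decide) s'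
    rw [c1]
  have c : iKK3 (L := L) (lw w0) (lw w1) (lw w2) * opE 1 (lx 1) (lx 2) = opE 1 (lx 1) (lx 2) * iKK3 (lw w0) (lw w1) (lw w2) := by
    have ck := fun (a : Lab L → ℝ) (k : Fin 3) => iK_comm_E (L := L) 1 a (ly_notin k) (lx_notin 1)
      (lx_notin 2) (lx_ne_ly 1 k).symm (lx_ne_ly 2 k).symm (lx_ne (by decide))
    unfold iKK3
    rw [mul_assoc, mul_assoc, ck, ← mul_assoc (iK 1 (lw w1) _ _), ck, ← mul_assoc, ← mul_assoc, ck]
    simp only [mul_assoc]
  have hj : join (lx 1) (lx 2) s = join (ly 1) (ly 2) s := by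
    have hgx := fun k => (hs.1 k).2
    have hgy : ∀ k : Fin 3, s.g (ly k) = 0 := fun k => by rw [← flat_px hs k, s.gs, hgx]; rfl
    ext w
    · rw [join_p (lx_ne (by decide)), join_p (ly_ne (by decide)), flat_px hs, flat_px hs,
        flat_py hs, flat_py hs]
      have h1 := lx_ne_ly (L := L) 1 1; have h2 := lx_ne_ly (L := L) 1 2
      have h3 := lx_ne_ly (L := L) 2 1; have h4 := lx_ne_ly (L := L) 2 2
      grind
    · rw [join_g (lx_ne (by decide)), join_g (ly_ne (by decide)), flat_px hs, flat_px hs,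
        flat_py hs, flat_py hs, hgx, hgx, hgy, hgy]
      have h1 := lx_ne_ly (L := L) 1 1; have h2 := lx_ne_ly (L := L) 1 2
      have h3 := lx_ne_ly (L := L) 2 1; have h4 := lx_ne_ly (L := L) 2 2
      grind
  have e3 : iKK3 (lw w0) (lw w1) (lw w2) (fun s' => (tx0y0' (code s') : ℝ)) (join (ly 1) (ly 2) s)
      = (opE 1 (ly 1) (ly 2) * iKK3 (lw w0) (lw w1) (lw w2) : Op (Lab L)) (fun s' => (tx0y0' (code s') : ℝ)) s := by
    rw [Module.End.mul_apply, opE_one]
  rw [e1, ← Module.End.mul_apply, c, Module.End.mul_apply, opE_one, hj, e3, iid_two (strand_rel h12),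
    Module.End.mul_apply, ← ithrough 1 p0 0 s hs]
  refine (maps_iK_of 1 (lw w0) (A := fun s' => s'.p (lx 1) = ly 1 ∧ s'.p (lx 2) = ly 2)
      (idle2_inv (by decide) (by decide))).congr (fun s' hs' => ?_)
      ⟨flat_px hs 1, flat_px hs 2⟩
  rw [opE_one, tx0y0'_eq]
  have := join_two_idle (s := s') (k := 1) (m := 2) (j := 0) (by decide) (by decide) (by decide)
    hs'.1 hs'.2
  have h12' : (join (ly 1) (ly 2) s').p (ly 1) = ly 2 := by
    rw [join_p (ly_ne (by decide)), if_pos rfl]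
  by_cases h : s'.p (lx 0) = ly 0
  · rw [if_pos h, if_pos ⟨this.2 h, h12'⟩]; norm_num
  · rw [if_neg h, if_neg (fun h' => h (this.1 h'.1))]; norm_num

/-- **The three-row identity** -/
theorem istar (t : ℝ) {s : St (Lab L)} (hs : Flat s) (p0 : ∀ k, w0 (k + L) = w0 k)
    (p1 : ∀ k, w1 (k + L) = w1 k) (p2 : ∀ k, w2 (k + L) = w2 k) (h01 : ∀ k, (1 - w0 k) * w1 k = 1)
    (h12 : ∀ k, (1 - w1 k) * w2 k = 1) (h20 : ∀ k, (1 - w2 k) * w0 k = 1) :
    (iT t (lw w0) (strands L) (lx 0) (ly 0) * (iT t (lw w1) (strands L) (lx 1) (ly 1) *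
        iT t (lw w2) (strands L) (lx 2) (ly 2)) : Op (Lab L)) (fun _ => 1) s
      = t ^ 3 - 3 * t + 3 + (t - 1) * (expW w0 s + expW w1 s
          + expW w2 s) := by
  rw [ithree_rows, Module.End.mul_apply, Module.End.mul_apply, EEE_idle t hs.1,
    iKKK_zg t (lw w0) (lw w1) (lw w2) hs.zg]
  have e1 : (iK 1 (lw w0) (strands L) (ly 0) * (iK 1 (lw w1) (strands L) (ly 1) *
        iK 1 (lw w2) (strands L) (ly 2)) : Op (Lab L))
          ((opJ t 0 * (opJ t 1 * opJ t 2) : Op (Lab L)) (fun _ => 1)) s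
      = iKK3 (lw w0) (lw w1) (lw w2) (fun s' => 1 + (t - 1) * (cn1 (code s') : ℝ)
          + (t - 1) ^ 2 * (cn2 (code s') : ℝ)
          + (t ^ 3 - 3 * t + 2) * (cn3 (code s') : ℝ)) s := by
    refine (imaps_KKK 1 (lw w0) (lw w1) (lw w2)).congr (fun s' hs' => ?_) hs.ps
    rw [close_eq, pow_count hs']
  rw [e1]
  have e2 : (fun s' : St (Lab L) => 1 + (t - 1) * (cn1 (code s') : ℝ)
          + (t - 1) ^ 2 * (cn2 (code s') : ℝ)
          + (t ^ 3 - 3 * t + 2) * (cn3 (code s') : ℝ))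
      = (fun _ => 1) + (t - 1) • ((fun s' => (tx2y2 (cjoin 0 1 (code s')) : ℝ))
          + (fun s' => (tx0y0' (cjoin 1 2 (code s')) : ℝ))
          + (fun s' => (cdiff tfree (code s') : ℝ))
          + (fun s' => (cdiff tx0y0 (code s') : ℝ)))
        + (t - 1) ^ 2 • (fun s' => (cdiff tfree (code s') : ℝ))
        + (t ^ 3 - 3 * t + 2) • (fun s' => (cn3 (code s') : ℝ)) := by
    funext s'
    simp only [Pi.add_apply, Pi.smul_apply, smul_eq_mul]
    unfold cn1 cn2
    push_cast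
    ring
  have hc : iKK3 (lw w0) (lw w1) (lw w2) (fun _ : St (Lab L) => (1 : ℝ)) s = 1 := by
    unfold iKK3
    rw [Module.End.mul_apply, Module.End.mul_apply, iK_const, iK_const, iK_const]
  rw [e2]
  simp only [map_add, map_smul, Pi.add_apply, Pi.smul_apply, smul_eq_mul]
  rw [hc, iA3_eq hs h01 h20, iA2_eq hs h01 h20, iA0_eq hs p1 h01 h20, iB1_eq hs p2 h01,
    iB2_eq hs p0 h12]
  ring

end Pool.Agent.H21.Perc
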