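import Mathlib
import Pool.Agent.H65.Perc.Closure
import Pool.Agent.H21.Perc.IStar

/-!
# Row operators on planar states, one weight for every strand
-/

namespace Pool.Agent.H21.Perc

open Pool.Agent.H65.Perc Pool.Agent.H65.Perc.St Pool.Agent.H65.Perc.Exq

variable {L : ℕ}

/-- shift of the weights -/
def sh (m : ℤ) (w : ℤ → ℝ) : ℤ → ℝ := fun k => w (k + m)

theorem sh_apply (m : ℤ) (w : ℤ → ℝ) (k : ℤ) : sh m w k = w (k + m) := rfl

theorem sh_sh (m m' : ℤ) (w : ℤ → ℝ) : sh m (sh m' w) = sh (m + m') w := by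
  funext k; simp only [sh_apply]; congr 1; ring

theorem sh_zero (w : ℤ → ℝ) : sh 0 w = w := by funext k; simp [sh_apply]

/-- periodicity -/
def Per (L : ℕ) (w : ℤ → ℝ) : Prop := ∀ k, w (k + L) = w k

theorem Per.sh {w : ℤ → ℝ} (h : Per L w) (m : ℤ) : Per L (sh m w) := by
  intro k
  simp only [sh_apply]
  rw [show k + L + m = (k + m) + L by ring, h]

theorem Per.mul {w : ℤ → ℝ} (h : Per L w) (k m : ℤ) : w (k + m * L) = w k := by
  induction m using Int.induction_on with
  | zero => simp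
  | succ i ih => rw [show k + ((i : ℤ) + 1) * L = (k + i * L) + L by ring, h, ih]
  | pred i ih =>
    rw [← ih, ← h (k + (-(i : ℤ) - 1) * L)]
    congr 1; ring

/-- the row operators and the rotation -/
theorem iT_rot [NeZero L] (t : ℝ) {w : ℤ → ℝ} (hw : Per L w) (k : Fin 3) :
    iT t (lw w) (strands L) (lx k) (ly k) * opRot
      = opRot * iT t (lw (sh 1 w)) (strands L) (lx k) (ly k) := by
  obtain ⟨L', rfl⟩ : ∃ L', L = L' + 1 := ⟨L - 1, by have := NeZero.ne L; omega⟩
  unfold opRot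
  rw [mul_assoc (opG _ _), opM_iT t (lw (sh 1 w)) (rho (L' + 1)) (lx_ne_ly k k) (ly_notin k),
    rho_lx, rho_ly, strands_rotate]
  have hcong : iT t (lw (sh 1 w) ∘ (rho (L' + 1)).symm)
      (List.map (fun i => (Sum.inl i.succ : Lab (L' + 1))) (List.finRange L') ++ [Sum.inl 0])
      (lx k) (ly k)
      = iT t (lw w)
      (List.map (fun i => (Sum.inl i.succ : Lab (L' + 1))) (List.finRange L') ++ [Sum.inl 0])
      (lx k) (ly k) := by
    refine iT_congr t (fun u hu => ?_) _ _
    have key : ∀ j : Fin (L' + 1), lw (sh 1 w) ((rho (L' + 1)).symm (Sum.inl j)) = lw w (Sum.inl j) := by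
      intro j
      obtain ⟨i, rfl⟩ := (finRotate (L' + 1)).surjective j
      rw [rho_symm_inl, Equiv.symm_apply_apply, lw_inl, lw_inl, sh_apply]
      have h := finRotate_val i
      split_ifs at h with h0
      · have e : ((i.val : ℤ)) + 1 = ((finRotate (L' + 1) i).val : ℤ) + ((L' + 1 : ℕ) : ℤ) := by
          exact_mod_cast h.symm
        rw [e, hw]
      · have e : ((i.val : ℤ)) + 1 = ((finRotate (L' + 1) i).val : ℤ) := by
          rw [add_zero] at h
          exact_mod_cast h.symm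
        rw [e]
    rw [List.mem_append, List.mem_map] at hu
    rcases hu with ⟨i, -, rfl⟩ | hu
    · exact key _
    · rw [List.mem_singleton] at hu
      subst hu
      exact key _
  rw [hcong]
  have h := iT_rotate t (lw w) (u := (Sum.inl 0 : Lab (L' + 1)))
    (us := (List.finRange L').map (fun i => (Sum.inl i.succ : Lab (L' + 1))))
    (x := lx k) (y := ly k) (lx_ne_ly k k) (by simp [lx]) (by simp [ly])
    (by simp [Fin.succ_ne_zero]) (by simp [lx]) (by simp [ly])
  rw [strands_cons, h, mul_assoc, ← mul_assoc (opG _ (-1)), opG_opG_add]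
  simp [opG_zero, mul_assoc]

theorem maps_iQS (t : ℝ) (a : Lab L → ℝ) : Maps (iK t a (strands L) (ly 0)) (QS (L := L) 0) (QS L) := by
  intro f hf s hs
  classical
  have h1 := imaps_sweep (L := L) t a 0
  have h2 := maps_iK_of (Λ := Lab L) t a (us := strands L) (y := ly 0)
    (A := fun s' => s'.p (lx 1) = ly 1 ∧ s'.p (lx 2) = ly 2) (idle2_inv (by decide) (by decide))
  have e1 : iK t a (strands L) (ly 0) f s
      = iK t a (strands L) (ly 0)
        (fun s' => if s'.p (lx 1) = ly 1 ∧ s'.p (lx 2) = ly 2 then f s' else 0) s :=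
    h2.congr (fun s' hs' => by rw [if_pos hs']) hs.2
  rw [e1]
  refine h1 _ (fun s' hs' => ?_) s hs.1
  by_cases h : s'.p (lx 1) = ly 1 ∧ s'.p (lx 2) = ly 2
  · rw [if_pos h]; exact hf s' ⟨hs', h⟩
  · rw [if_neg h]

/-- the row operator on flat states -/
theorem iT_flat (t : ℝ) (a : Lab L → ℝ) {s : St (Lab L)} (hs : Flat s) (f : St (Lab L) → ℝ) :
    iT t a (strands L) (lx 0) (ly 0) f s
      = iK 1 a (strands L) (ly 0)
        (fun s' => (if s'.p (lx 0) = ly 0 then t else 1) * f (closeLine 0 s')) s := by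
  unfold iT
  rw [Module.End.mul_apply, Module.End.mul_apply, opE_idle t (hs.1 0).1 (hs.1 0).2,
    iK_zg t a (ly_notin 0) hs.zg]
  refine (imaps_sweep 1 a 0).congr (fun s' hs' => ?_) hs.ps
  rw [Module.End.mul_apply, opG_apply, opE_apply]
  have hz := hs'.1
  unfold wt
  rw [twist_p, twist_g, hz]
  simp only [if_true, zero_add, ne_eq, one_ne_zero, not_false_eq_true, and_true]
  rfl

variable [NeZero L]

theorem imaps_flat (t : ℝ) (a : Lab L → ℝ) (f : St (Lab L) → ℝ) (hf : ∀ s, Planar s → f s = 0)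
    {s : St (Lab L)} (hs : Flat s) : iT t a (strands L) (lx 0) (ly 0) f s = 0 := by
  rw [iT_flat t a hs]
  refine maps_iQS 1 a _ (fun s' hs' => ?_) s hs.qs
  rw [hf _ (planar_close hs'.1 hs'.2.1 hs'.2.2), mul_zero]

theorem iT_rot_iterate (t : ℝ) {w : ℤ → ℝ} (hw : Per L w) (k : Fin 3) (m : ℕ)
    (f : St (Lab L) → ℝ) (s : St (Lab L)) :
    iT t (lw (sh m w)) (strands L) (lx k) (ly k) f (rot^[m] s)
      = iT t (lw w) (strands L) (lx k) (ly k) (fun s' => f (rot^[m] s')) s := by
  induction m generalizing f s with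
  | zero => simp [sh_zero]
  | succ m ih =>
    have h := congrFun (congrArg (fun Z : Op (Lab L) => Z f) (iT_rot (L := L) t (hw.sh m) k))
      (rot^[m] s)
    simp only [Module.End.mul_apply, opRot_apply] at h
    have e : sh 1 (sh (m : ℤ) w) = sh ((m + 1 : ℕ) : ℤ) w := by
      rw [sh_sh]; congr 1; push_cast; ring
    rw [← e, Function.iterate_succ_apply', ← h, ih]
    simp only [opRot_apply, ← Function.iterate_succ_apply']

theorem iT_rot_iterate' (t : ℝ) {w : ℤ → ℝ} (hw : Per L w) (k : Fin 3) (m : ℕ)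
    (f : St (Lab L) → ℝ) (s : St (Lab L)) :
    iT t (lw w) (strands L) (lx k) (ly k) f (rot^[m] s)
      = iT t (lw (sh (-m) w)) (strands L) (lx k) (ly k) (fun s' => f (rot^[m] s')) s := by
  rw [← iT_rot_iterate t (hw.sh (-m)) k m f s, sh_sh]
  simp [sh_zero]

theorem expW_eq_prod (w : ℤ → ℝ) (s : St (Lab L)) :
    expW w s = ∏ c ∈ Finset.range L,
      (open Classical in if Exposed s (c : ℤ) then w ((c : ℤ) - 1) * (1 - w c) else 1) := by
  classical
  unfold expW
  rw [Finset.prod_filter]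

theorem expW_rot {w : ℤ → ℝ} (hw : Per L w) {s : St (Lab L)} (hs : AllIdle s) :
    expW (sh 1 w) (rot s) = expW w s := by
  classical
  rw [expW_eq_prod, expW_eq_prod]
  set g : ℕ → ℝ := fun c => if Exposed s (c : ℤ) then w ((c : ℤ) - 1) * (1 - w c) else 1 with hg
  have hL : 0 < L := Nat.pos_of_ne_zero (NeZero.ne L)
  have h1 : ∀ c ∈ Finset.range L,
      (if Exposed (rot s) (c : ℤ) then sh 1 w ((c : ℤ) - 1) * (1 - sh 1 w c) else 1) = g (c + 1) := by
    intro c _
    rw [hg]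
    simp only [sh_apply]
    rw [if_congr (exposed_rot s hs c) rfl rfl]
    push_cast
    rw [show (c : ℤ) - 1 + 1 = (c : ℤ) + 1 - 1 by ring]
  rw [Finset.prod_congr rfl h1]
  have h2 : g L = g 0 := by
    rw [hg]
    simp only
    have e1 : Exposed s ((L : ℕ) : ℤ) ↔ Exposed s ((0 : ℕ) : ℤ) := by
      have := exposed_add_period s 0 1
      simpa using this
    rw [if_congr e1 rfl rfl]
    have e2 := hw (-1)
    have e3 := hw 0
    rw [show (-1 : ℤ) + L = (L : ℤ) - 1 by ring] at e2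
    rw [zero_add] at e3
    rw [e2, e3]
    simp
  have h3 := Finset.prod_range_succ g L
  have h4 := Finset.prod_range_succ' g L
  rw [h3] at h4
  obtain ⟨L', hL'⟩ : ∃ L', L = L' + 1 := ⟨L - 1, by omega⟩
  -- products over a full period
  have : ∏ c ∈ Finset.range L, g (c + 1) = ∏ c ∈ Finset.range L, g c := by
    rw [hL'] at h2 ⊢
    rw [Finset.prod_range_succ, Finset.prod_range_succ' g L', h2]
  exact this

theorem expW_iterate {w : ℤ → ℝ} (hw : Per L w) {s : St (Lab L)} (hs : AllIdle s) (m : ℕ) :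
    expW (sh m w) (rot^[m] s) = expW w s := by
  induction m with
  | zero => simp [sh_zero]
  | succ m ih =>
    have e : sh 1 (sh (m : ℤ) w) = sh ((m + 1 : ℕ) : ℤ) w := by
      rw [sh_sh]; congr 1; push_cast; ring
    rw [← e, Function.iterate_succ_apply', expW_rot (hw.sh m) ((allIdle_iterate s m).2 hs), ih]

theorem expW_iterate' {w : ℤ → ℝ} (hw : Per L w) {s : St (Lab L)} (hs : AllIdle s) (m : ℕ) :
    expW w (rot^[m] s) = expW (sh (-m) w) s := by
  rw [← expW_iterate (hw.sh (-m)) hs m, sh_sh]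
  simp [sh_zero]

theorem imaps_planar (t : ℝ) {w : ℤ → ℝ} (hw : Per L w) :
    Maps (iT t (lw w) (strands L) (lx 0) (ly 0)) (Planar (L := L)) Planar := by
  intro f hf s hs
  obtain ⟨m, s0, h0, rfl, -⟩ := hs.exists_flat
  rw [iT_rot_iterate' t hw]
  exact imaps_flat t _ _ (fun s' hs' => hf _ (planar_iterate hs' m)) h0

/-- the row operator is affine in the loop weight -/
theorem iT_affine (t : ℝ) {w : ℤ → ℝ} (hw : Per L w) (f : St (Lab L) → ℝ) {s : St (Lab L)}
    (hs : Planar s) :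
    iT t (lw w) (strands L) (lx 0) (ly 0) f s = iT 1 (lw w) (strands L) (lx 0) (ly 0) f s
      + (t - 1) * (iT 2 (lw w) (strands L) (lx 0) (ly 0) f s
        - iT 1 (lw w) (strands L) (lx 0) (ly 0) f s) := by
  obtain ⟨m, s0, h0, rfl, -⟩ := hs.exists_flat
  rw [iT_rot_iterate' t hw, iT_rot_iterate' 1 hw, iT_rot_iterate' 2 hw, iT_flat t _ h0,
    iT_flat 1 _ h0, iT_flat 2 _ h0]
  set F : St (Lab L) → ℝ := fun s' => f (rot^[m] (closeLine 0 s'))
  have key : ∀ r : ℝ, (fun s' : St (Lab L) => (if s'.p (lx 0) = ly 0 then r else 1) *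
      f (rot^[m] (closeLine 0 s')))
      = F + (r - 1) • (fun s' : St (Lab L) => (if s'.p (lx 0) = ly 0 then (1 : ℝ) else 0) * F s') := by
    intro r
    funext s'
    simp only [Pi.add_apply, Pi.smul_apply, smul_eq_mul, F]
    split_ifs <;> ring
  rw [key t, key 1, key 2]
  simp only [map_add, map_smul, Pi.add_apply, Pi.smul_apply, smul_eq_mul]
  ring

/-- the value on the constant function -/
theorem iT_const (t : ℝ) {w : ℤ → ℝ} (hw : Per L w) {s : St (Lab L)} (hs : Planar s) :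
    iT t (lw w) (strands L) (lx 0) (ly 0) (fun _ => 1) s = 1 + (t - 1) * expW w s := by
  obtain ⟨m, s0, h0, rfl, hn⟩ := hs.exists_flat
  rw [iT_rot_iterate' t hw, iT_flat t _ h0, expW_iterate' hw h0.1, ← ithrough 1 (hw.sh (-m)) 0 s0 h0]
  have key : (fun s' : St (Lab L) => (if s'.p (lx 0) = ly 0 then t else 1) * (1 : ℝ))
      = (fun _ => 1) + (t - 1) • (fun s' : St (Lab L) => if s'.p (lx 0) = ly 0 then (1 : ℝ) else 0) := by
    funext s'
    simp only [Pi.add_apply, Pi.smul_apply, smul_eq_mul]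
    split_ifs <;> ring
  rw [key, map_add, map_smul, iK_const]
  simp

/-- on idle states the three lines are interchangeable -/
theorem iT_lines (t : ℝ) (a : Lab L → ℝ) {k : Fin 3} (hk : k ≠ 0) (f : St (Lab L) → ℝ)
    {s : St (Lab L)} (hs : AllIdle s) :
    iT t a (strands L) (lx k) (ly k) f s = iT t a (strands L) (lx 0) (ly 0) f s := by
  have h := congrFun (congrArg (fun Z : Op (Lab L) => Z f) (iT_line (Λ := Lab L) t
    (us := strands L) (x := lx 0) (y := ly 0) (x' := lx k) (y' := ly k)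
    (lx_ne_ly 0 0) (lx_ne hk.symm) (lx_ne_ly 0 k) (lx_ne_ly k 0).symm (ly_ne hk.symm)
    (lx_ne_ly k k) (lx_notin 0) (ly_notin 0) (lx_notin k) (ly_notin k) a)) s
  simp only [Module.End.mul_apply] at h
  rwa [opE_idle t (hs 0).1 (hs 0).2, opE_idle t (hs k).1 (hs k).2, opE_idle t (hs 0).1 (hs 0).2,
    opE_idle t (hs k).1 (hs k).2] at h

/-- commutation on idle states -/
theorem iT_commute (t : ℝ) {a a' : Lab L → ℝ} {κ : ℝ} (hk1 : 1 + κ ≠ 0)
    (hκ : ∀ u ∈ strands L, κ * (1 - a' u * (1 - a u)) = a' u * (1 - a u) - a u * (1 - a' u))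
    (f : St (Lab L) → ℝ) {s : St (Lab L)} (hs : AllIdle s) :
    iT t a (strands L) (lx 0) (ly 0) (iT t a' (strands L) (lx 0) (ly 0) f) s
      = iT t a' (strands L) (lx 0) (ly 0) (iT t a (strands L) (lx 0) (ly 0) f) s := by
  have h := congrFun (congrArg (fun Z : Op (Lab L) => Z f) (iT_comm (Λ := Lab L) t
    (us := strands L) (x := lx 0) (y := ly 0) (x' := lx 1) (y' := ly 1) strands_nodup
    (lx_ne_ly 0 0) (lx_ne (by decide)) (lx_ne_ly 0 1) (lx_ne_ly 1 0).symm (ly_ne (by decide))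
    (lx_ne_ly 1 1) (lx_notin 0) (ly_notin 0) (lx_notin 1) (ly_notin 1) hk1 hκ)) s
  simp only [Module.End.mul_apply] at h
  rwa [opE_idle t (hs 1).1 (hs 1).2, opE_idle t (hs 1).1 (hs 1).2] at h

/-- the three-row identity on planar states, all rows on line `0` -/
theorem istar_planar (t : ℝ) {w0 w1 w2 : ℤ → ℝ} {s : St (Lab L)} (hs : Planar s)
    (p0 : Per L w0) (p1 : Per L w1) (p2 : Per L w2)
    (h01 : ∀ k, (1 - w0 k) * w1 k = 1) (h12 : ∀ k, (1 - w1 k) * w2 k = 1)
    (h20 : ∀ k, (1 - w2 k) * w0 k = 1) :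
    iT t (lw w0) (strands L) (lx 0) (ly 0) (iT t (lw w1) (strands L) (lx 0) (ly 0)
        (iT t (lw w2) (strands L) (lx 0) (ly 0) (fun _ => 1))) s
      = t ^ 3 - 3 * t + 3 + (t - 1) * (expW w0 s + expW w1 s + expW w2 s) := by
  have e1 : iT t (lw w0) (strands L) (lx 0) (ly 0) (iT t (lw w1) (strands L) (lx 0) (ly 0)
        (iT t (lw w2) (strands L) (lx 0) (ly 0) (fun _ => 1))) s
      = iT t (lw w0) (strands L) (lx 0) (ly 0) (iT t (lw w1) (strands L) (lx 1) (ly 1)
        (iT t (lw w2) (strands L) (lx 2) (ly 2) (fun _ => 1))) s := by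
    refine (imaps_planar t p0).congr (fun s' hs' => ?_) hs
    rw [iT_lines t (lw w1) (k := 1) (by decide) _ hs'.allIdle]
    refine (imaps_planar t p1).congr (fun s'' hs'' => ?_) hs'
    rw [iT_lines t (lw w2) (k := 2) (by decide) _ hs''.allIdle]
  rw [e1]
  obtain ⟨m, s0, h0, rfl, hn⟩ := hs.exists_flat
  rw [iT_rot_iterate' t p0, expW_iterate' p0 h0.1, expW_iterate' p1 h0.1, expW_iterate' p2 h0.1]
  simp only [iT_rot_iterate' t p1, iT_rot_iterate' t p2]
  have := istar t h0 (p0.sh (-m)) (p1.sh (-m)) (p2.sh (-m)) (fun k => h01 _) (fun k => h12 _)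
    (fun k => h20 _)
  simpa only [Module.End.mul_apply] using this

end Pool.Agent.H21.Perc
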