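import Mathlib
import Pool.Agent.H65.Perc.Markov
import Pool.Agent.H21.Perc.IClosure

/-!
# The Markov chain of planar states, one weight for every strand
-/

open Filter Topology

namespace Pool.Agent.H21.Perc

open Pool.Agent.H65.Perc Pool.Agent.H65.Perc.St

/-- probability of a crossing -/
def pr (a : ℝ) (b : Bool) : ℝ := if b then a else 1 - a

theorem sum_pr (a : ℝ) : ∑ b : Bool, pr a b = 1 := by
  simp [pr]

section Ops

variable {Λ : Type*} [DecidableEq Λ]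

theorem opR_one_apply (a : ℝ) (u y : Λ) (f : St Λ → ℝ) (s : St Λ) :
    (opR 1 a u y f) s = ∑ b : Bool, pr a b * f (crossing b u y s) := by
  simp only [opR, LinearMap.add_apply, LinearMap.smul_apply, Pi.add_apply, Pi.smul_apply,
    opP_apply, opE_apply, wt, ite_self, one_mul, smul_eq_mul, Fintype.sum_bool, crossing,
    if_true, Bool.false_eq_true, if_false, pr]

theorem iK_one_apply (a : Λ → ℝ) (y : Λ) : ∀ (L : ℕ) (σ : Fin L → Λ) (f : St Λ → ℝ) (s : St Λ),
    (iK 1 a ((List.finRange L).map σ) y f) s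
      = ∑ row : Fin L → Bool, (∏ i, pr (a (σ i)) (row i)) *
        f ((List.finRange L).foldl (fun s i => crossing (row i) (σ i) y s) s)
  | 0, σ, f, s => by simp [iK_nil]
  | L + 1, σ, f, s => by
    rw [List.finRange_succ, List.map_cons, List.map_map, iK_cons, Module.End.mul_apply,
      opR_one_apply]
    simp only [iK_one_apply a y L (σ ∘ Fin.succ) f]
    rw [← (Fin.consEquiv (fun _ : Fin (L+1) => Bool)).sum_comp, Fintype.sum_prod_type]
    refine Finset.sum_congr rfl (fun b _ => ?_)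
    rw [Finset.mul_sum]
    refine Finset.sum_congr rfl (fun row _ => ?_)
    simp only [Fin.consEquiv_apply, List.foldl_cons, List.foldl_map, Fin.cons_zero, Fin.cons_succ,
      Function.comp_apply, Fin.prod_univ_succ]
    ring

end Ops

/-- at loop weight 1 the row operator is the average over all rows -/
theorem iT_one_apply {L : ℕ} (w : ℤ → ℝ) (s : St (Lab L)) (hs : AllIdle s) (f : St (Lab L) → ℝ) :
    (iT 1 (lw w) (strands L) (lx 0) (ly 0) f) s
      = ∑ row : Fin L → Bool, (∏ i, pr (w i.val) (row i)) * f (rowMap 0 row s) := by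
  have hxy : (lx 0 : Lab L) ≠ ly 0 := by simp [lx, ly]
  unfold iT strands
  rw [Module.End.mul_apply, Module.End.mul_apply, opE_idle 1 (hs 0).1 (hs 0).2]
  rw [iK_one_apply]
  refine Finset.sum_congr rfl (fun row _ => ?_)
  rw [Module.End.mul_apply, opG_apply, opE_apply]
  simp only [wt, ite_self, one_mul, lw_inl]
  rfl

section General

variable {L : ℕ} [NeZero L]

/-- the row operator on functions of planar states -/
noncomputable def iTX (t : ℝ) (w : ℤ → ℝ) : (PX L → ℝ) →ₗ[ℝ] (PX L → ℝ) :=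
  resX ∘ₗ (iT t (lw w) (strands L) (lx 0) (ly 0)) ∘ₗ extX

theorem iTX_apply (t : ℝ) (w : ℤ → ℝ) (f : PX L → ℝ) (x : PX L) :
    iTX t w f x = iT t (lw w) (strands L) (lx 0) (ly 0) (extX f) x.1 := rfl

theorem iTX_resX (t : ℝ) {w : ℤ → ℝ} (hw : Per L w) (F : St (Lab L) → ℝ) :
    iTX t w (resX F) = resX (iT t (lw w) (strands L) (lx 0) (ly 0) F) := by
  funext x
  rw [iTX_apply]
  exact (imaps_planar t hw).congr (fun s hs => extX_resX hs F) x.2

noncomputable def iSX (w : ℤ → ℝ) : (PX L → ℝ) →ₗ[ℝ] (PX L → ℝ) := iTX 1 w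
noncomputable def iNX (w : ℤ → ℝ) : (PX L → ℝ) →ₗ[ℝ] (PX L → ℝ) := iTX 2 w - iTX 1 w

theorem iTX_affine (t : ℝ) {w : ℤ → ℝ} (hw : Per L w) :
    (iTX t w : (PX L → ℝ) →ₗ[ℝ] (PX L → ℝ)) = iSX w + (t - 1) • iNX w := by
  apply LinearMap.ext
  intro f
  funext x
  simp only [LinearMap.add_apply, LinearMap.smul_apply, Pi.add_apply, Pi.smul_apply,
    smul_eq_mul, iSX, iNX, LinearMap.sub_apply, Pi.sub_apply, iTX_apply]
  exact iT_affine t hw (extX f) x.2

/-- the condition for commutation of the row operators -/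
def CommCond (w w' : ℤ → ℝ) : Prop := ∃ κ : ℝ, 1 + κ ≠ 0 ∧
  ∀ k, κ * (1 - w' k * (1 - w k)) = w' k * (1 - w k) - w k * (1 - w' k)

theorem iTX_comm (t : ℝ) {w w' : ℤ → ℝ} (hw : Per L w) (hw' : Per L w') (hc : CommCond w w') :
    (iTX t w : (PX L → ℝ) →ₗ[ℝ] (PX L → ℝ)) ∘ₗ iTX t w' = iTX t w' ∘ₗ iTX t w := by
  obtain ⟨κ, h1, h2⟩ := hc
  apply LinearMap.ext
  intro f
  rw [LinearMap.comp_apply, LinearMap.comp_apply]
  conv_lhs => rw [← resX_extX f]
  conv_rhs => rw [← resX_extX f]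
  rw [iTX_resX t hw', iTX_resX t hw, iTX_resX t hw, iTX_resX t hw']
  funext x
  refine iT_commute t h1 (fun u hu => ?_) (extX f) x.2.allIdle
  simp only [strands, List.mem_map, List.mem_finRange, true_and] at hu
  obtain ⟨i, rfl⟩ := hu
  exact h2 _

theorem iSN_comm {w w' : ℤ → ℝ} (hw : Per L w) (hw' : Per L w') (hc : CommCond w w') :
    (iSX w : (PX L → ℝ) →ₗ[ℝ] (PX L → ℝ)) ∘ₗ iSX w' = iSX w' ∘ₗ iSX w ∧
    (iSX w : (PX L → ℝ) →ₗ[ℝ] (PX L → ℝ)) ∘ₗ iNX w' + iNX w ∘ₗ iSX w'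
      = iSX w' ∘ₗ iNX w + iNX w' ∘ₗ iSX w := by
  have h := fun t : ℝ => iTX_comm (L := L) t hw hw' hc
  simp only [iTX_affine _ hw, iTX_affine _ hw'] at h
  have e0 := h 1
  have e1 := h 2
  have e2 := h 0
  constructor
  · simpa using e0
  · apply LinearMap.ext
    intro f
    funext x
    have f1 := congrFun (congrArg (fun Z : (PX L → ℝ) →ₗ[ℝ] (PX L → ℝ) => Z f) e1) x
    have f2 := congrFun (congrArg (fun Z : (PX L → ℝ) →ₗ[ℝ] (PX L → ℝ) => Z f) e2) x
    simp only [LinearMap.comp_apply, LinearMap.add_apply, LinearMap.smul_apply, Pi.add_apply,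
      Pi.smul_apply, smul_eq_mul, map_add, map_smul] at f1 f2 ⊢
    linarith

theorem iTX_const (t : ℝ) {w : ℤ → ℝ} (hw : Per L w) :
    (iTX t w : (PX L → ℝ) →ₗ[ℝ] (PX L → ℝ)) (fun _ => 1)
    = fun x => 1 + (t - 1) * expW w x.1 := by
  have : (fun _ : PX L => (1 : ℝ)) = resX (fun _ => 1) := rfl
  rw [this, iTX_resX t hw]
  funext x
  exact iT_const t hw x.2

theorem iSX_one {w : ℤ → ℝ} (hw : Per L w) :
    (iSX w : (PX L → ℝ) →ₗ[ℝ] (PX L → ℝ)) (fun _ => 1) = fun _ => 1 := by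
  unfold iSX
  rw [iTX_const 1 hw]
  funext x
  ring

theorem iNX_one {w : ℤ → ℝ} (hw : Per L w) :
    (iNX w : (PX L → ℝ) →ₗ[ℝ] (PX L → ℝ)) (fun _ => 1) = fun x => expW w x.1 := by
  unfold iNX
  rw [LinearMap.sub_apply, iTX_const 1 hw, iTX_const 2 hw]
  funext x
  simp only [Pi.sub_apply]
  ring

theorem istar_X (t : ℝ) {w0 w1 w2 : ℤ → ℝ} (p0 : Per L w0) (p1 : Per L w1) (p2 : Per L w2)
    (h01 : ∀ k, (1 - w0 k) * w1 k = 1) (h12 : ∀ k, (1 - w1 k) * w2 k = 1)
    (h20 : ∀ k, (1 - w2 k) * w0 k = 1) :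
    (iTX t w0 : (PX L → ℝ) →ₗ[ℝ] (PX L → ℝ)) (iTX t w1 (iTX t w2 (fun _ => 1)))
      = fun x => t ^ 3 - 3 * t + 3 + (t - 1) * (expW w0 x.1 + expW w1 x.1 + expW w2 x.1) := by
  have : (fun _ : PX L => (1 : ℝ)) = resX (fun _ => 1) := rfl
  rw [this, iTX_resX t p2, iTX_resX t p1, iTX_resX t p0]
  funext x
  exact istar_planar t x.2 p0 p1 p2 h01 h12 h20

theorem istar_coeffs {w0 w1 w2 : ℤ → ℝ} (p0 : Per L w0) (p1 : Per L w1) (p2 : Per L w2)
    (h01 : ∀ k, (1 - w0 k) * w1 k = 1) (h12 : ∀ k, (1 - w1 k) * w2 k = 1)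
    (h20 : ∀ k, (1 - w2 k) * w0 k = 1) :
    ((iSX w0 : (PX L → ℝ) →ₗ[ℝ] (PX L → ℝ)) (iNX w1 (fun _ => 1))
        + iSX w0 (iSX w1 (iNX w2 (fun _ => 1))) = iNX w1 (fun _ => 1) + iNX w2 (fun _ => 1)) ∧
    ((iNX w0 : (PX L → ℝ) →ₗ[ℝ] (PX L → ℝ)) (iNX w1 (fun _ => 1))
        + iNX w0 (iSX w1 (iNX w2 (fun _ => 1))) + iSX w0 (iNX w1 (iNX w2 (fun _ => 1)))
        = fun _ => 3) := by
  have h := fun (t : ℝ) (x : PX L) => congrFun (istar_X (L := L) t p0 p1 p2 h01 h12 h20) x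
  simp only [iTX_affine _ p0, iTX_affine _ p1, iTX_affine _ p2] at h
  have n0 := fun x : PX L => congrFun (iNX_one (L := L) p0) x
  have n1 := fun x : PX L => congrFun (iNX_one (L := L) p1) x
  have n2 := fun x : PX L => congrFun (iNX_one (L := L) p2) x
  simp only [LinearMap.add_apply, LinearMap.smul_apply, Pi.add_apply,
      Pi.smul_apply, smul_eq_mul, map_add, map_smul, iSX_one p0, iSX_one p1, iSX_one p2] at h
  constructor
  · funext x
    have e1 := h 2 x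
    have e2 := h 0 x
    have e3 := h 3 x
    simp only [Pi.add_apply]
    rw [n1, n2]
    rw [← n0, ← n1, ← n2] at e1 e2 e3
    rw [← n1, ← n2]
    linarith
  · funext x
    have e1 := h 2 x
    have e2 := h 0 x
    simp only [Pi.add_apply]
    rw [← n0, ← n1, ← n2] at e1 e2
    linarith

theorem iSX_apply (w : ℤ → ℝ) (f : PX L → ℝ) (x : PX L) :
    iSX w f x = ∑ row : Fin L → Bool, (∏ i, pr (w i.val) (row i)) *
      f ⟨rowMap 0 row x.1, planar_rowMap x.2 row⟩ := by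
  unfold iSX
  rw [iTX_apply, iT_one_apply w x.1 x.2.allIdle]
  refine Finset.sum_congr rfl (fun row _ => ?_)
  congr 1
  exact extX_apply _ f

/-- **the functional equation** -/
theorem ifunctional {w w0 w1 w2 : ℤ → ℝ} {x0 : PX L} {c : ℝ} (hw : Per L w)
    (hD : Doeblin (iSX (L := L) w) x0 c) (Ψ : (PX L → ℝ) →ₗ[ℝ] ℝ)
    (hΨ : ∀ f : PX L → ℝ, ∀ x, Tendsto (fun M : ℕ => (iSX w ^ M) f x) atTop (𝓝 (Ψ f)))
    (p0 : Per L w0) (p1 : Per L w1) (p2 : Per L w2)
    (c0 : CommCond w w0) (c1 : CommCond w w1) (c2 : CommCond w w2)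
    (h01 : ∀ k, (1 - w0 k) * w1 k = 1) (h12 : ∀ k, (1 - w1 k) * w2 k = 1)
    (h20 : ∀ k, (1 - w2 k) * w0 k = 1) :
    Ψ (fun x => expW w0 x.1) * Ψ (fun x => expW w1 x.1)
      + Ψ (fun x => expW w1 x.1) * Ψ (fun x => expW w2 x.1)
      + Ψ (fun x => expW w0 x.1) * Ψ (fun x => expW w2 x.1) = 3 := by
  have hstar := istar_coeffs (L := L) p0 p1 p2 h01 h12 h20
  set v : Fin 3 → ℤ → ℝ := ![w0, w1, w2] with hv
  have hp : ∀ i, Per L (v i) := by intro i; fin_cases i; exacts [p0, p1, p2]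
  have hc : ∀ i, CommCond w (v i) := by intro i; fin_cases i; exacts [c0, c1, c2]
  have key := perturb_e2 hD Ψ hΨ (iNX w) (fun i => iSX (v i)) (fun i => iNX (v i))
    (fun i => iSX_one (hp i)) (fun i => (iSN_comm hw (hp i) (hc i)).1)
    (fun i => (iSN_comm hw (hp i) (hc i)).2) hstar.1 hstar.2
  have key2 := key.2
  simp only [iNX_one (hp _)] at key2
  exact key2

/-- invariance under the commuting operators -/
theorem iinvariant {w w0 : ℤ → ℝ} {x0 : PX L} {c : ℝ} (hw : Per L w)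
    (hD : Doeblin (iSX (L := L) w) x0 c) (Ψ : (PX L → ℝ) →ₗ[ℝ] ℝ)
    (hΨ : ∀ f : PX L → ℝ, ∀ x, Tendsto (fun M : ℕ => (iSX w ^ M) f x) atTop (𝓝 (Ψ f)))
    (p0 : Per L w0) (c0 : CommCond w w0) (f : PX L → ℝ) : Ψ (iSX w0 f) = Ψ f := by
  have hone : Ψ (fun _ => 1) = 1 := by
    obtain ⟨Ψ', hlim', -, h1, -, -⟩ := exists_stationary hD
    have : Ψ (fun _ => 1) = Ψ' (fun _ => 1) := tendsto_nhds_unique (hΨ _ x0) (hlim' _ x0)
    rw [this, h1]
  have hinv : ∀ f, Ψ (iSX w f) = Ψ f := by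
    intro f
    refine tendsto_nhds_unique (hΨ (iSX w f) x0) ?_
    have := (tendsto_add_atTop_iff_nat 1).2 (hΨ f x0)
    refine this.congr (fun M => ?_)
    rw [pow_succ, Module.End.mul_apply]
  have hcm := (iSN_comm (L := L) hw p0 c0).1
  have h := invariant_eq Ψ hΨ (Ψ ∘ₗ iSX w0) (fun g => by
    rw [LinearMap.comp_apply, LinearMap.comp_apply]
    have := congrArg (fun Z : (PX L → ℝ) →ₗ[ℝ] (PX L → ℝ) => Z g) hcm
    simp only [LinearMap.comp_apply] at this
    rw [← this, hinv]) f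
  rw [LinearMap.comp_apply, LinearMap.comp_apply, iSX_one p0, hone, one_mul] at h
  exact h

end General

section Even

variable (n : ℕ) [NeZero n]

/-- minorization for weights in `[δ, 1 - δ]` -/
theorem idoeblin {w : ℤ → ℝ} (hw : Per (2 * n) w) {δ : ℝ} (hδ : 0 < δ)
    (h : ∀ k, δ ≤ w k ∧ w k ≤ 1 - δ) :
    Doeblin (iSX (L := 2 * n) w) (xpi n) (δ ^ (2 * n)) where
  one := iSX_one hw
  pos f hf x := by
    rw [iSX_apply]
    refine Finset.sum_nonneg fun row _ => mul_nonneg (Finset.prod_nonneg fun i _ => ?_) (hf _)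
    unfold pr
    split_ifs
    · linarith [(h i.val).1]
    · linarith [(h i.val).2]
  cpos := by positivity
  minor f hf x := by
    rw [iSX_apply]
    obtain ⟨row0, hrow⟩ := exists_reset n
    have hpr : ∀ (i : Fin (2 * n)) (b : Bool), δ ≤ pr (w i.val) b := by
      intro i b
      unfold pr
      split_ifs
      · exact (h i.val).1
      · linarith [(h i.val).2]
    have h1 : f (xpi n) = f ⟨rowMap 0 row0 x.1, planar_rowMap x.2 row0⟩ := by
      congr 1
      exact Subtype.ext (hrow x.1 x.2.allIdle).symm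
    have h2 : δ ^ (2 * n) * f (xpi n) ≤ (∏ i, pr (w i.val) (row0 i)) *
        f ⟨rowMap 0 row0 x.1, planar_rowMap x.2 row0⟩ := by
      rw [h1]
      refine mul_le_mul_of_nonneg_right ?_ (hf _)
      have := Finset.prod_le_prod (s := Finset.univ) (f := fun _ : Fin (2 * n) => δ)
        (g := fun i => pr (w i.val) (row0 i)) (fun _ _ => hδ.le) (fun i _ => hpr i _)
      simpa using this
    refine h2.trans ?_
    exact Finset.single_le_sum (f := fun row => (∏ i, pr (w i.val) (row i)) *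
      f ⟨rowMap 0 row x.1, planar_rowMap x.2 row⟩)
      (fun row _ => mul_nonneg (Finset.prod_nonneg fun i _ => hδ.le.trans (hpr i _)) (hf _))
      (Finset.mem_univ row0)

end Even

end Pool.Agent.H21.Perc
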